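import Pool.Agent.H9.SE.Tar0
import Pool.Agent.H38.SE.TarA

/-!
# MP_eaeaf5_lc, part K: absoluteness, coding of countable models by reals. Definitions and targets
-/

set_option linter.unusedVariables false

open Ordinal Order Set
open scoped ZFSet

namespace SE

open SF CAA

/-! ## Well-foundedness -/

/-- `W` contains no infinite descending sequence -/
def NoDes (W : V → Prop) (T E : V) : Prop := ¬ ∃ s, W s ∧ ZFSet.IsFunc om T s ∧
  ∀ n : ℕ, ZFSet.pair (app s (nS (n + 1))) (app s (nS n)) ∈ E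

/-- `f` is a rank function for the relation `E` on `T` -/
structure Rkf (T E f : V) : Prop where
  svl : Svl f
  dm : dm f = T
  ord : ∀ x ∈ T, IsOrd (app f x)
  lt : ∀ x ∈ T, ∀ y ∈ T, ZFSet.pair x y ∈ E → app f x ∈ app f y

/-- KA1: the well-founded part -/
def T_KA1 : Prop := ∀ W, ZFm W → ∀ T E, W T → W E → ∃ G f, W G ∧ W f ∧ G ⊆ T ∧ Rkf G E f ∧
  ∀ t ∈ T, (∀ x ∈ T, ZFSet.pair x t ∈ E → x ∈ G) → t ∈ G

/-- KA2: dependent choice -/
def T_KA2 : Prop := ∀ W, ZFCm W → ∀ B E, W B → W E → B.Nonempty →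
  (∀ t ∈ B, ∃ x ∈ B, ZFSet.pair x t ∈ E) → ¬ NoDes W B E

/-- KA: relations without descending sequences have rank functions -/
def T_KA : Prop := ∀ W, ZFCm W → ∀ T E, W T → W E → (NoDes W T E ↔ ∃ f, W f ∧ Rkf T E f)

/-! ## Open sets -/

/-- KB: codes of open sets -/
def T_KB : Prop :=
  (∀ a x, Rl a → Rl x → (Opn a x ↔ ∃ m : ℕ, rs x (nS m) ∈ rg a)) ∧
  ∀ M, ZFm M → ∀ P, M P → P ⊆ sq → ∃ a, M a ∧ Rl a ∧
    ∀ x, Rl x → (Opn a x ↔ ∃ m : ℕ, rs x (nS m) ∈ P)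

/-- the pointwise pair of a real (or a sequence) `x` and a finite sequence `b` -/
noncomputable def prs (x b : V) : V := resS (dm b) fun n => ZFSet.pair (app x n) (app b n)

/-- the tree of the finite sequences `b` such that no initial segment of `(x, b)` is enumerated by
the code `a` -/
noncomputable def TO (a x : V) : V := sq.sep fun b => ∀ m ∈ insert (dm b) (dm b),
  rs (prs x b) m ∉ rg a

/-- proper extensions of finite sequences -/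
noncomputable def EO : V := (ZFSet.prod sq sq).sep fun z => snd z ⊆ fst z ∧ fst z ≠ snd z

/-- KC: `Π¹₁` statements -/
def T_KC : Prop := Tm ZFm (fun _ v => TO (v 0) (v 1)) ∧ Tm ZFm (fun _ _ => EO) ∧
  (∀ x y, Rl x → Rl y → ∀ n : ℕ, rs (prl x y) (nS n) = prs x (rs y (nS n))) ∧
  ∀ W, ZFm W → ∀ a x, W a → Rl a → W x → Rl x →
    ((∀ v, W v → Rl v → Opn a (prl x v)) ↔ NoDes W (TO a x) EO)

/-- KD: absoluteness of `Π¹₁` statements -/
def T_KD : Prop := ∀ W W' : V → Prop, ZFCm W → ZFCm W' → (∀ x, W x → W' x) →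
  ∀ a x, W a → Rl a → W x → Rl x →
  ((∀ v, W v → Rl v → Opn a (prl x v)) ↔ ∀ v, W' v → Rl v → Opn a (prl x v))

/-- the finite set of the sequences which are considered at stage `n` -/
noncomputable def Dx (e n : V) : V := sq.sep fun b => (∃ k ∈ n, app e k = b) ∧ dm b ⊆ n

/-- nodes of the Shoenfield tree: pairs `(u, h)`, `u` a finite sequence (initial segment of `y`),
`h` a finite part of a rank function on the tree of `(z, y)` -/
structure ShN (e a z t : V) : Prop where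
  svl : Svl (snd t)
  dm : ∀ b, b ∈ dm (snd t) ↔ b ∈ Dx e (SF.dm (fst t)) ∧ b ∈ TO a (prs z (fst t))
  lt : ∀ b ∈ SF.dm (snd t), ∀ c ∈ SF.dm (snd t), ZFSet.pair c b ∈ EO →
    app (snd t) c ∈ app (snd t) b

/-- the Shoenfield tree -/
noncomputable def TS (e a z α : V) : V :=
  (ZFSet.prod sq (Fs (ZFSet.prod sq α))).sep fun t => ShN e a z t

/-- extension of nodes -/
noncomputable def ES (T : V) : V := (ZFSet.prod T T).sep fun z =>
  fst (snd z) ⊆ fst (fst z) ∧ fst (snd z) ≠ fst (fst z) ∧ snd (snd z) ⊆ snd (fst z)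

/-- KE0: definability of the Shoenfield tree -/
def T_KE0 : Prop := Tm ZFm (fun _ v => TS (v 0) (v 1) (v 2) (v 3)) ∧ Tm ZFm (fun _ v => ES (v 0))

/-- KE1: a real with a rank function gives a branch -/
def T_KE1 : Prop := ∀ W, ZFm W → ∀ e a z α y f, W e → W a → W z → W α → W y → W f → Onto e om hf →
  Rl a → Rl z → Rl y → Rkf (TO a (prl z y)) EO f → (∀ b ∈ TO a (prl z y), app f b ∈ α) →
  ¬ NoDes W (TS e a z α) (ES (TS e a z α))

/-- KE2: a branch gives a real with a rank function -/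
def T_KE2 : Prop := ∀ W, ZFm W → ∀ e a z α, W e → W a → W z → W α → Onto e om hf → IsOrd α →
  Rl a → Rl z → ¬ NoDes W (TS e a z α) (ES (TS e a z α)) →
  ∃ y f, W y ∧ Rl y ∧ W f ∧ Rkf (TO a (prl z y)) EO f

/-! ## Closed conditions on functions from `hf` to `hf` -/

/-- total functions from `hf` to `hf` -/
def Tot (F : V → V) : Prop := ∀ h ∈ hf, F h ∈ hf

/-- the (finite) set `s` of pairs is a part of the graph of `F` -/
def Prt (s : V) (F : V → V) : Prop := ∀ z ∈ s, ∃ h ∈ hf, z = ZFSet.pair h (F h)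

/-- `P` is a uniformly definable closed condition (with parameters in `hf`) on functions from `hf`
to `hf`: there is a definable set of forbidden finite functions -/
def Cls (P : (V → V) → (ℕ → V) → Prop) : Prop := ∃ K : (ℕ → V) → V, Tm ZFm (fun _ v => K v) ∧
  ∀ v : ℕ → V, In (· ∈ hf) v → K v ⊆ hf ∧
    ∀ F : V → V, Tot F → (P F v ↔ ∀ s ∈ K v, ¬ Prt s F)

/-- terms with values in `hf` -/
def TmH (k : (ℕ → V) → V) : Prop := Tm ZFm (fun _ v => k v) ∧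
  ∀ v : ℕ → V, In (· ∈ hf) v → k v ∈ hf

/-- KH1: calculus of closed conditions: Boolean operations, bounded quantifiers, atomic
conditions -/
def T_KH1 : Prop :=
  (∀ P Q, Cls P → Cls Q → Cls fun F v => P F v ∧ Q F v) ∧
  (∀ P Q, Cls P → Cls Q → Cls fun F v => P F v ∨ Q F v) ∧
  (∀ P, Cls P → Cls fun F v => ∀ h ∈ hf, P F (cons h v)) ∧
  (∀ (R : (ℕ → V) → Prop) P, Dfb ZFm (fun _ v => R v) → Cls P → Cls fun F v => R v → P F v) ∧
  (∀ R : (ℕ → V) → Prop, Dfb ZFm (fun _ v => R v) → Cls fun F v => R v) ∧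
  (∀ k b, TmH k → TmH b → Cls fun F v => F (k v) = b v) ∧
  (∀ k b, TmH k → TmH b → Cls fun F v => F (k v) ≠ b v)

/-- KH2: substitution of terms and of values of the function; equivalent conditions -/
def T_KH2 : Prop :=
  (∀ k P, TmH k → Cls P → Cls fun F v => P F (cons (F (k v)) v)) ∧
  (∀ P (τ : ℕ → (ℕ → V) → V), (∀ i, TmH (τ i)) → Cls P → Cls fun F v => P F fun i => τ i v) ∧
  (∀ P Q : (V → V) → (ℕ → V) → Prop, Cls P →
    (∀ F v, Tot F → In (· ∈ hf) v → (P F v ↔ Q F v)) → Cls Q)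

/-! ## Models coded by functions from `hf` to `hf` -/

/-- keys -/
noncomputable def ky (k : ℕ) (x : V) : V := ZFSet.pair (nS k) x

/-- the formula with the code `c` is true under the assignment `t` -/
def tv (F : V → V) (c t : V) : Prop := F (ky 0 (ZFSet.pair c t)) = nS 1

/-- membership -/
def em (F : V → V) (m n : V) : Prop := tv F (cd (.mem 0 1)) (pl ∅ [m, n])

/-- equality -/
def eqv (F : V → V) (m n : V) : Prop := tv F (cd (.eq 0 1)) (pl ∅ [m, n])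

/-- the index of the hereditarily finite set `h` -/
noncomputable def nm (h : V) : V := ZFSet.pair (nS 1) h

/-- `F` codes the structure with the index set `hf`: truth -/
structure MC1 (F : V → V) : Prop where
  mem : ∀ i j : ℕ, ∀ t ∈ PL hf, (tv F (cd (.mem i j)) t ↔ em F (vn i t) (vn j t))
  eq : ∀ i j : ℕ, ∀ t ∈ PL hf, (tv F (cd (.eq i j)) t ↔ eqv F (vn i t) (vn j t))
  prd : ∀ i : ℕ, ∀ t ∈ PL hf, ¬ tv F (cd (.prd i)) t
  neg : ∀ c ∈ CD, ∀ t ∈ PL hf, (tv F (ZFSet.pair (nS 3) c) t ↔ ¬ tv F c t)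
  and : ∀ c ∈ CD, ∀ d ∈ CD, ∀ t ∈ PL hf,
    (tv F (ZFSet.pair (nS 4) (ZFSet.pair c d)) t ↔ tv F c t ∧ tv F d t)
  ex1 : ∀ c ∈ CD, ∀ t ∈ PL hf, tv F (ZFSet.pair (nS 5) c) t →
    tv F c (psh (F (ky 13 (ZFSet.pair c t))) t)
  ex2 : ∀ c ∈ CD, ∀ t ∈ PL hf, ∀ y ∈ hf, tv F c (psh y t) → tv F (ZFSet.pair (nS 5) c) t

/-- equality, names for the elements of `hf`, for `ω` (index `1`) and for the real given by the
values at the keys `ky 9 n` (index `∅`) -/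
structure MC2 (F : V → V) : Prop where
  e1 : ∀ m ∈ hf, ∀ n ∈ hf, ∀ z ∈ hf, eqv F m n → (em F z m ↔ em F z n)
  e2 : ∀ z ∈ hf, ∀ z' ∈ hf, ∀ m ∈ hf, eqv F z z' → (em F z m ↔ em F z' m)
  e3 : ∀ m ∈ hf, ∀ n ∈ hf, ¬ eqv F m n →
    ¬ (em F (F (ky 2 (ZFSet.pair m n))) m ↔ em F (F (ky 2 (ZFSet.pair m n))) n)
  n1 : ∀ h ∈ hf, ∀ h' ∈ h, em F (nm h') (nm h)
  n2 : ∀ h ∈ hf, ∀ z ∈ hf, em F z (nm h) →
    F (ky 3 (ZFSet.pair z h)) ∈ h ∧ eqv F z (nm (F (ky 3 (ZFSet.pair z h))))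
  o1 : ∀ n ∈ om, em F (nm n) (nS 1)
  o2 : ∀ z ∈ hf, em F z (nS 1) → F (ky 4 z) ∈ om ∧ eqv F z (nm (F (ky 4 z)))
  x1 : ∀ n ∈ om, em F (nm (ZFSet.pair n (F (ky 9 n)))) ∅
  x2 : ∀ z ∈ hf, em F z ∅ → F (ky 5 z) ∈ om ∧
    eqv F z (nm (ZFSet.pair (F (ky 5 z)) (F (ky 9 (F (ky 5 z))))))

/-- the axioms of `ZFm` -/
structure MC3 (F : V → V) : Prop where
  pr : ∀ m ∈ hf, ∀ n ∈ hf, ∀ z ∈ hf,
    (em F z (F (ky 6 (ZFSet.pair m n))) ↔ eqv F z m ∨ eqv F z n)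
  u1 : ∀ m ∈ hf, ∀ z ∈ hf, ∀ u ∈ hf, em F z u → em F u m → em F z (F (ky 7 m))
  u2 : ∀ m ∈ hf, ∀ z ∈ hf, em F z (F (ky 7 m)) →
    em F z (F (ky 8 (ZFSet.pair m z))) ∧ em F (F (ky 8 (ZFSet.pair m z))) m
  sp : ∀ c ∈ CD, ∀ t ∈ PL hf, ∀ a ∈ hf, ∀ z ∈ hf,
    (em F z (F (ky 10 (ZFSet.pair c (ZFSet.pair t a)))) ↔ em F z a ∧ tv F c (psh z t))
  co : ∀ c ∈ CD, ∀ t ∈ PL hf, ∀ a ∈ hf, ∀ x ∈ hf, ∀ y ∈ hf, em F x a →
    tv F c (psh y (psh x t)) → ∀ b, b = F (ky 11 (ZFSet.pair c (ZFSet.pair t a))) →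
      ∀ u, u = F (ky 12 (ZFSet.pair c (ZFSet.pair t (ZFSet.pair b x)))) →
        em F u b ∧ tv F c (psh u (psh x t))

/-- all conditions; the formula `φ` is true of the real -/
structure MC (φ : Fml) (F : V → V) : Prop where
  a : MC1 F
  b : MC2 F
  c : MC3 F
  d : tv F (cd φ) (pl ∅ [])

/-- KP1, KP2, KP3: these conditions are closed -/
def T_KP1 : Prop := Cls fun F _ => MC1 F
/-- KP2 -/
def T_KP2 : Prop := Cls fun F _ => MC2 F
/-- KP3 -/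
def T_KP3 : Prop := Cls fun F _ => MC3 F
/-- KP -/
def T_KP : Prop := ∀ φ : Fml, Cls fun F _ => MC φ F

/-! ### From codes to models -/

/-- the membership relation of the coded structure -/
noncomputable def Ef (F : V → V) : V := (ZFSet.prod hf hf).sep fun z => em F (fst z) (snd z)

/-- `c` is the collapse function of `(T, E)` -/
structure Cps (T E c : V) : Prop where
  svl : Svl c
  dm : dm c = T
  eq : ∀ m ∈ T, ∀ y, y ∈ app c m ↔ ∃ z ∈ T, ZFSet.pair z m ∈ E ∧ y = app c z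

/-- KI: the collapse of a relation with a rank function -/
def T_KI : Prop := ∀ W, ZFm W → ∀ T E r, W T → W E → W r → Rkf T E r → ∃ c, W c ∧ Cps T E c

/-- KJ1: the collapse of the coded structure -/
def T_KJ1 : Prop := ∀ F c, Tot F → MC2 F → Cps hf (Ef F) c →
  (∀ m ∈ hf, ∀ n ∈ hf, (app c m = app c n ↔ eqv F m n)) ∧
  (∀ m ∈ hf, ∀ n ∈ hf, (app c m ∈ app c n ↔ em F m n)) ∧
  (∀ h ∈ hf, app c (nm h) = h) ∧ app c (nS 1) = om ∧
  (∀ x, Rl x → (∀ n ∈ om, F (ky 9 n) = app x n) → app c ∅ = x) ∧ (rg c).IsTransitive ∧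
  ∀ y, y ∈ rg c ↔ ∃ m ∈ hf, y = app c m

/-- KJ2: truth in the collapse -/
def T_KJ2 : Prop := ∀ F c, Tot F → MC1 F → MC2 F → Cps hf (Ef F) c → ∀ (φ : Fml), ∀ t ∈ PL hf,
  (tv F (cd φ) t ↔ Sat (· ∈ rg c) φ fun i => app c (vn i t))

/-- KK: the collapse is a model of `ZFm` which contains the real -/
def T_KK : Prop := ∀ φ F c x, Tot F → MC φ F → Cps hf (Ef F) c → Rl x →
  (∀ n ∈ om, F (ky 9 n) = app x n) →
  ZFm (· ∈ rg c) ∧ x ∈ rg c ∧ Sat (· ∈ rg c) φ fun _ => x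

/-! ### From models to codes -/

/-- `g` enumerates the model `T`, with the right names; the index of the real is `∅` -/
structure Enm (T g : V) : Prop where
  zf : ZFm (· ∈ T)
  on : Onto g hf T
  nm : ∀ h ∈ hf, app g (nm h) = h
  om : app g (nS 1) = om
  rl : Rl (app g ∅)

/-- KL: enumerations exist -/
def T_KL : Prop := ∀ W, ZFm W → ∀ T x, W T → Ctbl W T → ZFm (· ∈ T) → x ∈ T → Rl x →
  ∃ g, W g ∧ Enm T g ∧ app g ∅ = x

/-- `b` is a good value at the key `h` -/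
structure Gb (T g h b : V) : Prop where
  tr : ∀ c ∈ CD, ∀ t ∈ PL hf, h = ky 0 (ZFSet.pair c t) → (b = nS 1 ↔ mpl g t ∈ sS T ∅ c)
  ex : ∀ c ∈ CD, ∀ t ∈ PL hf, h = ky 13 (ZFSet.pair c t) →
    (∃ y ∈ hf, mpl g (psh y t) ∈ sS T ∅ c) → mpl g (psh b t) ∈ sS T ∅ c
  e3 : ∀ m ∈ hf, ∀ n ∈ hf, h = ky 2 (ZFSet.pair m n) → app g m ≠ app g n →
    ¬ (app g b ∈ app g m ↔ app g b ∈ app g n)
  n2 : ∀ z ∈ hf, ∀ k ∈ hf, h = ky 3 (ZFSet.pair z k) → app g z ∈ k → b = app g z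
  o2 : ∀ z ∈ hf, h = ky 4 z → app g z ∈ SF.om → b = app g z
  x2 : ∀ z ∈ hf, h = ky 5 z → app g z ∈ app g ∅ → b ∈ SF.om ∧
    app g z = ZFSet.pair b (app (app g ∅) b)
  x9 : ∀ n ∈ SF.om, h = ky 9 n → b = app (app g ∅) n
  pr : ∀ m ∈ hf, ∀ n ∈ hf, h = ky 6 (ZFSet.pair m n) → app g b = {app g m, app g n}
  u1 : ∀ m ∈ hf, h = ky 7 m → app g b = (⋃₀ (app g m) : ZFSet)
  u2 : ∀ m ∈ hf, ∀ z ∈ hf, h = ky 8 (ZFSet.pair m z) → (∃ u ∈ app g m, app g z ∈ u) →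
    app g z ∈ app g b ∧ app g b ∈ app g m
  sp : ∀ c ∈ CD, ∀ t ∈ PL hf, ∀ a ∈ hf, h = ky 10 (ZFSet.pair c (ZFSet.pair t a)) →
    app g b = (app g a).sep fun z => psh z (mpl g t) ∈ sS T ∅ c
  co : ∀ c ∈ CD, ∀ t ∈ PL hf, ∀ a ∈ hf, h = ky 11 (ZFSet.pair c (ZFSet.pair t a)) →
    ∀ x ∈ app g a, (∃ y ∈ T, psh y (psh x (mpl g t)) ∈ sS T ∅ c) →
      ∃ y ∈ app g b, psh y (psh x (mpl g t)) ∈ sS T ∅ c
  cw : ∀ c ∈ CD, ∀ t ∈ PL hf, ∀ a ∈ hf, ∀ x ∈ hf,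
    h = ky 12 (ZFSet.pair c (ZFSet.pair t (ZFSet.pair a x))) →
    (∃ y ∈ app g a, psh y (psh (app g x) (mpl g t)) ∈ sS T ∅ c) →
      app g b ∈ app g a ∧ psh (app g b) (psh (app g x) (mpl g t)) ∈ sS T ∅ c

/-- KM: definability of good values, choice of good values -/
def T_KM : Prop := Dfb ZFm (fun _ v => Gb (v 0) (v 1) (v 2) (v 3)) ∧
  ∀ W, ZFCm W → ∀ T g, W T → W g → (∀ h ∈ hf, ∃ b ∈ hf, Gb T g h b) →
    ∃ f, W f ∧ ZFSet.IsFunc hf hf f ∧ ∀ h ∈ hf, Gb T g h (app f h)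

/-- KN: good values exist -/
def T_KN : Prop := ∀ T g, Enm T g → ∀ h ∈ hf, ∃ b ∈ hf, Gb T g h b

/-- KO1: good values give the truth conditions -/
def T_KO1 : Prop := ∀ T g F, Enm T g → Tot F → (∀ h ∈ hf, Gb T g h (F h)) →
  (∀ (φ : Fml), ∀ t ∈ PL hf, (tv F (cd φ) t ↔ Sat (· ∈ T) φ fun i => app g (vn i t))) ∧
  (∀ m ∈ hf, ∀ n ∈ hf, (em F m n ↔ app g m ∈ app g n)) ∧
  (∀ m ∈ hf, ∀ n ∈ hf, (eqv F m n ↔ app g m = app g n)) ∧ MC1 F

/-- KO2: good values give the other conditions -/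
def T_KO2 : Prop := ∀ T g F, Enm T g → Tot F → (∀ h ∈ hf, Gb T g h (F h)) → MC2 F ∧ MC3 F

/-! ### The code of the `Σ¹₂` set -/

/-- the function from `hf` to `hf` which is coded by the reals `x` and `w` (`j` is an injection of
`hf` into `ω`) -/
noncomputable def cf (j x w h : V) : V :=
  sel (∃ n ∈ om, h = ky 9 n) (app x (snd h)) (app w (app j h))

/-- `j` is an injection of `hf` into `ω` -/
def Inj (j : V) : Prop := ZFSet.IsFunc hf om j ∧ ∀ h ∈ hf, ∀ k ∈ hf, app j h = app j k → h = k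

/-- KG: injections, functions as reals -/
def T_KG : Prop := (∀ W, ZFm W → ∃ j, W j ∧ Inj j) ∧
  Tm ZFm (fun _ v => cf (v 0) (v 1) (v 2) (v 3)) ∧
  (∀ j x w, Inj j → Rl x → Rl w → Tot (cf j x w) ∧ ∀ n ∈ om, cf j x w (ky 9 n) = app x n) ∧
  ∀ W, ZFm W → ∀ j x f, W j → Inj j → Rl x → W f → ZFSet.IsFunc hf hf f →
    (∀ n ∈ om, app f (ky 9 n) = app x n) →
    ∃ w, W w ∧ Rl w ∧ ∀ h ∈ hf, cf j x w h = app f h

/-- KQ: a closed condition together with well-foundedness is a `Π¹₁` condition -/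
def T_KQ : Prop := ∀ P : (V → V) → Prop, (Cls fun F _ => P F) → ∀ W, ZFm W → ∀ j, W j → Inj j →
  ∃ a, W a ∧ Rl a ∧ ∀ x w, W x → Rl x → W w → Rl w →
    ((∀ v, W v → Rl v → Opn a (prl (prl x w) v)) ↔
      P (cf j x w) ∧ NoDes W hf (Ef (cf j x w)))

/-- KR: existence of a countable model with a given property is `Σ¹₂` -/
def T_KR : Prop := ∀ (φ : Fml) (W : V → Prop), ZFCm W → ∃ a, W a ∧ Rl a ∧ ∀ x, W x → Rl x →
  ((∃ T, W T ∧ Ctbl W T ∧ ZFm (· ∈ T) ∧ x ∈ T ∧ Sat (· ∈ T) φ fun _ => x) ↔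
    ∃ w, W w ∧ Rl w ∧ ∀ v, W v → Rl v → Opn a (prl (prl x w) v))

/-! ### Large and countable models -/

/-- HTG: Hartogs in models of `ZFC` -/
def T_HTG : Prop := ∀ W, ZFC W → ∀ x, W x → ∃ χ : Ordinal.{0}, W χ.toZFSet ∧
  ∀ f, W f → ¬ Onto f x χ.toZFSet

/-- KX1: sizes of the levels `L_δ[A]` -/
def T_KX1 : Prop := ∀ (M : V → Prop), ZFCm M → ∀ C, M C → Gd C → ∀ A, M A → ∀ δ : Ordinal.{0},
  M δ.toZFSet → Sm M C δ.toZFSet → Sm M C (LA A δ)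

/-- KX2: the levels `L_γ[A]`, `γ > ω` a limit, are good -/
def T_KX2 : Prop := ∀ (A : V) (γ : Ordinal.{0}), IsSuccLimit γ → ω < γ → Gd (LA A γ)

/-- KX: large models -/
def T_KX : Prop := ∀ W, ZFC W → ∀ x, W x → Rl x → ∀ ρ : Ordinal.{0}, W ρ.toZFSet →
  ∃ κ : Ordinal.{0}, W (LA x κ) ∧ ZFm (· ∈ LA x κ) ∧ x ∈ LA x κ ∧ ρ.toZFSet ∈ LA x κ

/-- KY: countable elementary submodels and their collapses -/
def T_KY : Prop := ∀ W, ZFCm W → ∀ (x : V) (κ : Ordinal.{0}), W (LA x κ) → ZFm (· ∈ LA x κ) →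
  x ∈ LA x κ → Rl x → ∀ φ : Fml, (Sat (· ∈ LA x κ) φ fun _ => x) →
  ∃ T, W T ∧ Ctbl W T ∧ ZFm (· ∈ T) ∧ x ∈ T ∧ Sat (· ∈ T) φ fun _ => x

/-! ### Substitutions -/

/-- KS: pointwise substitutions -/
def T_KS : Prop := ∀ M, ZFm M → ∀ ψ, M ψ → ZFSet.IsFunc (ZFSet.prod om hf) hf ψ → ∀ a, M a → Rl a →
  ∃ c, M c ∧ Rl c ∧ ∀ x, Rl x →
    (Opn c x ↔ Opn a (resS om fun n => app ψ (ZFSet.pair n (app x n))))

end SE
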