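import Pool.Agent.H9.SE.Stmt
import Pool.Agent.H38.SE.Defs

/-!
# MP_eaeaf5_lc: interface of the parts L (Luzin set), U (coding of the pointclasses), C (complexity)
-/

set_option linter.unusedVariables false

open Ordinal Order Set
open scoped ZFSet

namespace SE

open SF

/-! ## Part L: the ground model, the Luzin set -/

/-- L0: there is a countable level which is a model of `ZFC` -/
def T_L0 : Prop := ∃ τ : Ordinal.{0}, ((LA ∅ τ : V) : Set V).Countable ∧ ZFC (· ∈ LA ∅ τ)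

/-- `IL` is a uniform definition of the Luzin sets `D.L`: its instances in transitive models of
`ZFm` (of smaller height) are elements of `D.L`, and each element of `D.L` satisfies it in all
models which contain a certain ordinal -/
structure IsL (IL : (V → Prop) → (ℕ → V) → Prop) (τ : Ordinal.{0}) (L : V) : Prop where
  dn : ∀ M : V → Prop, ZFm M → (∀ α : Ordinal.{0}, M α.toZFSet → α < τ) → ∀ l, M l →
    IL M (fun _ => l) → l ∈ L
  up : ∀ l ∈ L, ∃ ρ < τ, ∀ M : V → Prop, ZFm M → M ρ.toZFSet → M l ∧ IL M (fun _ => l)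

/-- L: the context -/
def T_LUZ : Prop := ∃ IL : (V → Prop) → (ℕ → V) → Prop, Dfb ZFm IL ∧
  ∀ τ : Ordinal.{0}, ((LA ∅ τ : V) : Set V).Countable → ZFC (· ∈ LA ∅ τ) →
    ∃ H L : V, (∀ T : V → V, Cx.Ok ⟨(· ∈ LA ∅ τ), H, L, T⟩) ∧ IsL IL τ L

/-! ## Part U: from codes with values in `hf` to codes in Baire space -/

/-- separation for the boldface `Σ¹₄` sets, codes in `R(W)` -/
def SepH (W : V → Prop) : Prop := ∀ a b, W a → Rl a → W b → Rl b →
  (∀ x, W x → Rl x → ¬ (S4 W a x ∧ S4 W b x)) →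
  ∃ c d, W c ∧ Rl c ∧ W d ∧ Rl d ∧ ∀ x, W x → Rl x →
    (S4 W c x ↔ ¬ S4 W d x) ∧ (S4 W a x → S4 W c x) ∧ ¬ (S4 W b x ∧ S4 W c x)

/-- two `Π¹₄` sets which cannot be reduced, codes in `R(W)` -/
def NoRedH (W : V → Prop) : Prop := ∃ a b, W a ∧ Rl a ∧ W b ∧ Rl b ∧
  ∀ c d, W c → Rl c → W d → Rl d → ¬ ∀ x, W x → Rl x →
    (¬ S4 W c x → ¬ S4 W a x) ∧ (¬ S4 W d x → ¬ S4 W b x) ∧ ¬ (¬ S4 W c x ∧ ¬ S4 W d x) ∧
      (¬ S4 W a x ∨ ¬ S4 W b x → ¬ S4 W c x ∨ ¬ S4 W d x)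

/-- U: the translation to Baire space, boldface and lightface -/
def T_U : Prop := ∀ W : V → Prop, ZFC W → SepH W → NoRedH W →
  PSR.Separation W ∧ ¬ PSR.ReductionLight W ∧ ¬ PSR.ReductionBold W

/-! ## Part C: complexity and absoluteness -/

/-- SHO: Shoenfield absoluteness for `Σ¹₂` (upwards also between models of different height) -/
def T_SHO : Prop := ∀ W W' : V → Prop, ZFCm W → ZFCm W' → (∀ x, W x → W' x) →
  (∀ α : Ordinal.{0}, W' α.toZFSet → W α.toZFSet) → ∀ a z, W a → Rl a → W z → Rl z →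
  ((∃ y, W y ∧ Rl y ∧ ∀ v, W v → Rl v → Opn a (prl (prl z y) v)) ↔
    ∃ y, W' y ∧ Rl y ∧ ∀ v, W' v → Rl v → Opn a (prl (prl z y) v))

/-- P3U: `Σ¹₃` statements go up -/
def T_P3U : Prop := ∀ W W' : V → Prop, ZFCm W → ZFCm W' → (∀ x, W x → W' x) →
  (∀ α : Ordinal.{0}, W' α.toZFSet → W α.toZFSet) → ∀ a x, W a → Rl a → W x → Rl x →
  P3 W' a x → P3 W a x

/-- COD: the set of the reals which are not coded is `Π¹₃` -/
def T_COD : Prop := ∀ (IL : (V → Prop) → (ℕ → V) → Prop), Dfb ZFm IL →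
  ∀ (W : V → Prop) (τ : Ordinal.{0}) (L : V), ZFC W → (∀ α : Ordinal.{0}, W α.toZFSet ↔ α < τ) →
    IsL IL τ L → (∀ l ∈ L, Rl l) →
    ∃ a, W a ∧ Rl a ∧ ∀ x, W x → Rl x → (¬ Cod W L x ↔ P3 W a x)

/-- SUB: substitutions in `Σ¹₄` sets -/
def T_SUB : Prop := ∀ W : V → Prop, ZFm W → ∀ a r, W a → Rl a → W r → Rl r → ∀ e : ℕ,
  (∃ c, W c ∧ Rl c ∧ ∀ y, W y → Rl y → (S4 W c y ↔ S4 W a (prl (kc e) (prl r y)))) ∧
  ∃ c, W c ∧ Rl c ∧ ∀ y, W y → Rl y → (S4 W c y ↔ S4 W a (prl (kc e) y))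

end SE
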