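import Pool.Agent.H9.SE.TarK

/-! COD: the set of the reals which are not coded is `Π¹₃`. -/

open Ordinal Order Set
open scoped ZFSet

namespace SE

open SF CAA

/-- the first component of a real -/
noncomputable def cod_t (p : V) : V := resS om fun n => fst (app p n)
/-- the second component of a real -/
noncomputable def cod_f (p : V) : V := resS om fun n => snd (app p n)

/-- the formula -/
def RC (IL : (V → Prop) → (ℕ → V) → Prop) (M : V → Prop) (v : ℕ → V) : Prop :=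
  ¬ (∀ n ∈ om, ∃ j ∈ hf, app (cod_f (v 0)) n = ZFSet.pair (rs (cod_t (v 0)) n) j) ∨
  ∃ l, M l ∧ (IL M (fun _ => l) ∧ ∀ m ∈ om, ∃ n ∈ om, m ⊆ n ∧ app (cod_f (v 0)) n = app l n)

theorem tm_cod_t : Tm ZFm (fun _ v => cod_t (v 0)) :=
  Tm.resS (g := fun _ u => fst (app (u 1) (u 0))) Tm.om (Tm.fst (Tm.app (Tm.var 1) (Tm.var 0)))

theorem tm_cod_f : Tm ZFm (fun _ v => cod_f (v 0)) :=
  Tm.resS (g := fun _ u => snd (app (u 1) (u 0))) Tm.om (Tm.snd (Tm.app (Tm.var 1) (Tm.var 0)))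

theorem dfb_RC (hA : T_AA) (hAI : T_AI) (IL : (V → Prop) → (ℕ → V) → Prop) (h : Dfb ZFm IL) :
    Dfb ZFm (RC IL) := by
  have thf : Tm ZFm (fun _ _ => hf) := hA.2.2.2.2.2.2.2.1
  have trs : Tm ZFm (fun _ v => rs (v 0) (v 1)) := hAI.2.1
  have ff : ∀ i, Tm ZFm (fun _ v => cod_f (v i)) := fun i => tm_cod_f.rn (fun _ => i)
  have tt : ∀ i, Tm ZFm (fun _ v => cod_t (v i)) := fun i => tm_cod_t.rn (fun _ => i)
  refine Dfb.or (Dfb.not ?_) ?_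
  · refine (Dfb.ball (R := fun _ v => ∃ j ∈ hf, app (cod_f (v 1)) (v 0) =
      ZFSet.pair (rs (cod_t (v 1)) (v 0)) j) ktr_zfm Tm.om ?_).congr fun M k v hv => Iff.rfl
    refine (Dfb.bex (R := fun _ v => app (cod_f (v 2)) (v 1) =
      ZFSet.pair (rs (cod_t (v 2)) (v 1)) (v 0)) ktr_zfm thf ?_).congr fun M k v hv => Iff.rfl
    exact Dfb.eq (Tm.app (ff 2) (Tm.var 1))
      (Tm.pair (Tm.at2 (F := fun _ x y => rs x y) trs (tt 2) (Tm.var 1)) (Tm.var 0))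
  · refine (Dfb.ex (R := fun M v => IL M (fun _ => v 0) ∧ ∀ m ∈ om, ∃ n ∈ om, m ⊆ n ∧
      app (cod_f (v 1)) n = app (v 0) n) ?_).congr fun M k v hv => Iff.rfl
    refine Dfb.and (h.rn fun _ => 0) ?_
    refine (Dfb.ball (R := fun _ v => ∃ n ∈ om, v 0 ⊆ n ∧ app (cod_f (v 2)) n = app (v 1) n)
      ktr_zfm Tm.om ?_).congr fun M k v hv => Iff.rfl
    refine (Dfb.bex (R := fun _ v => v 1 ⊆ v 0 ∧ app (cod_f (v 3)) (v 0) = app (v 2) (v 0))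
      ktr_zfm Tm.om ?_).congr fun M k v hv => Iff.rfl
    exact (Dfb.subset (Tm.var 1) (Tm.var 0)).and
      (Dfb.eq (Tm.app (ff 3) (Tm.var 0)) (Tm.app (Tm.var 2) (Tm.var 0)))

theorem cod_prl (hG : T_AG) (hH : T_AH) {t f : V} (ht : Rl t) (hf' : Rl f) :
    Rl (prl t f) ∧ cod_t (prl t f) = t ∧ cod_f (prl t f) = f := by
  obtain ⟨h1, h2⟩ := hH.1 t f ht hf'
  have g1 : ∀ n : ℕ, app t (nS n) ∈ hf := fun n => ((hG.1 t ht).2.2.1 n).1
  have g2 : ∀ n : ℕ, app f (nS n) ∈ hf := fun n => ((hG.1 f hf').2.2.1 n).1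
  have e1 : ∀ n : ℕ, fst (app (prl t f) (nS n)) = app t (nS n) := fun n => by
    rw [h2 n, fst_pair]
  have e2 : ∀ n : ℕ, snd (app (prl t f) (nS n)) = app f (nS n) := fun n => by
    rw [h2 n, snd_pair]
  have k1 := hG.2.2.2.2.2 (fun n => fst (app (prl t f) n)) (fun n => by rw [e1]; exact g1 n)
  have k2 := hG.2.2.2.2.2 (fun n => snd (app (prl t f) n)) (fun n => by rw [e2]; exact g2 n)
  refine ⟨h1, hG.2.2.1 _ _ k1.1 ht fun n => ?_, hG.2.2.1 _ _ k2.1 hf' fun n => ?_⟩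
  · exact (k1.2 n).trans (e1 n)
  · exact (k2.2 n).trans (e2 n)

theorem t_cod (hA : T_AA) (hG : T_AG) (hH : T_AH) (hAI : T_AI) (hKR : T_KR) (hKX : T_KX)
    (hKY : T_KY) : T_COD := by
  intro IL hIL W τ L k hτ isL rL
  have kz : ZFm W := k.toZFm
  obtain ⟨φ, hφ⟩ := dfb_RC hA hAI IL hIL
  obtain ⟨a, ha, ra, h⟩ := hKR φ W k.toZFCm
  refine ⟨a, ha, ra, fun t ht rt => ?_⟩
  have key : ∀ f, W f → Rl f → (((∀ n ∈ om, ∃ j ∈ hf, app f n = ZFSet.pair (rs t n) j) →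
      ∃ l ∈ L, ∀ m ∈ om, ∃ n ∈ om, m ⊆ n ∧ app f n = app l n) ↔
      ∃ w, W w ∧ Rl w ∧ ∀ v, W v → Rl v → Opn a (prl (prl (prl t f) w) v)) := by
    intro f hf' rf
    obtain ⟨rp, e1, e2⟩ := cod_prl hG hH rt rf
    have hp : W (prl t f) := (hAI.2.2.1).1 W kz (cons t (cons f fun _ => ∅))
      (In.cons (In.cons (fun _ => kz.mempty) hf') ht)
    have rc : ∀ T : V, ZFm (· ∈ T) → prl t f ∈ T → (Sat (· ∈ T) φ (fun _ => prl t f) ↔
        (¬ (∀ n ∈ om, ∃ j ∈ hf, app f n = ZFSet.pair (rs t n) j) ∨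
        ∃ l, l ∈ T ∧ (IL (· ∈ T) (fun _ => l) ∧ ∀ m ∈ om, ∃ n ∈ om, m ⊆ n ∧
          app f n = app l n))) := by
      intro T zT hT
      rw [hφ _ zT _ fun _ => hT]
      unfold RC
      rw [e1, e2]
    rw [← h (prl t f) hp rp]
    constructor
    · intro h1
      by_cases h2 : ∀ n ∈ om, ∃ j ∈ hf, app f n = ZFSet.pair (rs t n) j
      · obtain ⟨l, hl, h3⟩ := h1 h2
        obtain ⟨ρ, hρ, h4⟩ := isL.up l hl
        obtain ⟨κ, k1, k2, k3, k4⟩ := hKX W k _ hp rp ρ ((hτ ρ).2 hρ)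
        obtain ⟨h5, h6⟩ := h4 _ k2 k4
        exact hKY W k.toZFCm _ κ k1 k2 k3 rp φ ((rc _ k2 k3).2 (Or.inr ⟨l, h5, h6, h3⟩))
      · obtain ⟨κ, k1, k2, k3, k4⟩ := hKX W k _ hp rp 0 (by
          have : (0 : Ordinal.{0}).toZFSet = ∅ := by simp
          rw [this]
          exact kz.mempty)
        exact hKY W k.toZFCm _ κ k1 k2 k3 rp φ ((rc _ k2 k3).2 (Or.inl h2))
    · rintro ⟨T, hT, -, zT, pT, sT⟩ h2
      rcases (rc T zT pT).1 sT with h3 | ⟨l, hl, h4, h5⟩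
      · exact absurd h2 h3
      · exact ⟨l, isL.dn _ zT (fun α hα => (hτ α).1 (kz.trans _ hT _ hα)) l hl h4, h5⟩
  have e : P3 W a t ↔ ∀ f, W f → Rl f → ∃ w, W w ∧ Rl w ∧ ∀ v, W v → Rl v →
      Opn a (prl (prl (prl t f) w) v) := Iff.rfl
  rw [e]
  constructor
  · intro h1 f hf' rf
    refine (key f hf' rf).1 fun h2 => ?_
    by_contra h3
    refine h1 ⟨f, hf', rf, h2, fun l hl => ?_⟩
    by_contra h4
    refine h3 ⟨l, hl, fun m hm => ?_⟩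
    by_contra h5
    refine h4 ⟨m, hm, fun n hn hmn h6 => h5 ⟨n, hn, hmn, h6⟩⟩
  · rintro h1 ⟨f, hf', rf, h2, h3⟩
    obtain ⟨l, hl, h4⟩ := (key f hf' rf).2 (h1 f hf' rf) h2
    obtain ⟨m, hm, h5⟩ := h3 l hl
    obtain ⟨n, hn, hmn, h6⟩ := h4 m hm
    exact h5 n hn hmn h6

end SE
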