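import Pool.Agent.H9.SE.TarK

/-! KB: codes of open sets. KD, P3U: absoluteness (assembly). -/

open Ordinal Order Set
open scoped ZFSet

namespace SE

open SF CAA

/-- KB -/
theorem t_kb (hA : T_AA) (hF : T_AF) (hG : T_AG) : T_KB := by
  have h0 : (∅ : V) ∈ hf := by
    have := hA.2.1 0
    rwa [nS_zero] at this
  constructor
  · intro a x ra rx
    constructor
    · rintro ⟨n, hn, m, hm, h⟩
      obtain ⟨m, rfl⟩ := mem_om.1 hm
      refine ⟨m, mem_rg.2 ⟨n, ?_⟩⟩
      rw [← h]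
      exact pair_app_mem ra hn
    · rintro ⟨m, hm⟩
      obtain ⟨n, hn⟩ := mem_rg.1 hm
      have hd : n ∈ om := by
        have : n ∈ dm a := mem_dm.2 ⟨_, hn⟩
        rwa [(hG.1 a ra).2.1] at this
      exact ⟨n, hd, nS m, nS_mem_om m, app_eq (svl_of_isFunc ra) hn⟩
  · intro M k P hP sP
    rcases hA.2.2.2.2.2.2.2.2 M k with he | ⟨e, we, he⟩
    · exact absurd (he ▸ h0 : (∅ : V) ∈ (∅ : V)) (ZFSet.notMem_empty _)
    · have fv : ∀ n : ℕ, sel (app e (nS n) ∈ P) (app e (nS n)) (nS 1) ∈ hf := by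
        intro n
        by_cases h1 : app e (nS n) ∈ P
        · rw [sel_pos h1]
          exact app_mem he.1 (nS_mem_om n)
        · rw [sel_neg h1]
          exact hA.2.1 1
      obtain ⟨r, v⟩ := hG.2.2.2.2.2 (fun n => sel (app e n ∈ P) (app e n) (nS 1)) fv
      refine ⟨resS om fun n => sel (app e n ∈ P) (app e n) (nS 1), ?_, r, ?_⟩
      · have t1 : Tm ZFm (fun _ u => resS om fun n => sel (app (u 0) n ∈ u 1) (app (u 0) n)
            (nS 1)) :=
          Tm.resS (g := fun _ u => sel (app (u 1) (u 0) ∈ u 2) (app (u 1) (u 0)) (nS 1))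
            Tm.om (Tm.sel (Dfb.mem (Tm.app (Tm.var 1) (Tm.var 0)) (Tm.var 2))
              (Tm.app (Tm.var 1) (Tm.var 0)) (Tm.nS 1))
        exact t1.1 M k (cons e (cons P fun _ => ∅)) (In.cons (In.cons (fun _ => k.mempty) hP) we)
      · intro x rx
        constructor
        · rintro ⟨n, hn, m, hm, h⟩
          obtain ⟨m, rfl⟩ := mem_om.1 hm
          obtain ⟨n, rfl⟩ := mem_om.1 hn
          refine ⟨m, ?_⟩
          rw [v n] at h
          by_cases h1 : app e (nS n) ∈ P
          · rw [sel_pos h1] at h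
            rwa [h] at h1
          · rw [sel_neg h1] at h
            exfalso
            have h2 : (∅ : V) ∈ rs x (nS m) := by
              rw [← h, ← nS_zero]
              exact nS_mem_nS.2 (by omega)
            have h3 : (∅ : V) ∈ x := (ZFSet.mem_sep.1 h2).1
            have h4 := rx.1 h3
            obtain ⟨p, -, q, -, h5⟩ := ZFSet.mem_prod.1 h4
            exact pair_ne_empty _ _ h5.symm
        · rintro ⟨m, hm⟩
          have h1 : rs x (nS m) ∈ hf := (ZFSet.mem_sep.1 (sP hm)).1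
          obtain ⟨n, hn, h2⟩ := he.2 _ h1
          obtain ⟨n, rfl⟩ := mem_om.1 hn
          have h3 : app e (nS n) = rs x (nS m) := app_eq (svl_of_isFunc he.1) h2
          refine ⟨nS n, nS_mem_om n, nS m, nS_mem_om m, ?_⟩
          rw [v n, h3, sel_pos hm]

/-- KD -/
theorem t_kd (hKA : T_KA) (hKC : T_KC) : T_KD := by
  intro W W' k k' sub a x wa ra wx rx
  constructor
  · intro h
    have n1 := (hKC.2.2.2 W k.toZFm a x wa ra wx rx).1 h
    have tT : W (TO a x) := hKC.1.1 W k.toZFm (cons a (cons x fun _ => ∅))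
      (In.cons (In.cons (fun _ => k.toZFm.mempty) wx) wa)
    have tE : W EO := hKC.2.1.1 W k.toZFm (fun _ => ∅) fun _ => k.toZFm.mempty
    obtain ⟨f, wf, hf'⟩ := (hKA W k _ _ tT tE).1 n1
    exact (hKC.2.2.2 W' k'.toZFm a x (sub _ wa) ra (sub _ wx) rx).2
      ((hKA W' k' _ _ (sub _ tT) (sub _ tE)).2 ⟨f, sub _ wf, hf'⟩)
  · intro h v wv rv
    exact h v (sub v wv) rv

/-- P3U -/
theorem t_p3u (hH : T_AH) (hAI : T_AI) (hS : T_SHO) : T_P3U := by
  intro W W' k k' sub ord a x wa ra wx rx h y1 w1 r1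
  have wp : W (prl x y1) := (hAI.2.2.1).1 W k.toZFm (cons x (cons y1 fun _ => ∅))
    (In.cons (In.cons (fun _ => k.toZFm.mempty) w1) wx)
  exact (hS W W' k k' sub ord a (prl x y1) wa ra wp (hH.1 x y1 rx r1).1).2
    (h y1 (sub _ w1) r1)

end SE
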