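import Pool.Agent.H9.SE.TarK

/-! KG: injections of `hf` into `ω`, functions on `hf` as reals. -/

open Ordinal Order Set
open scoped ZFSet

namespace SE

open SF CAA

/-- the first index -/
noncomputable def kg_l (e h : V) : V :=
  ⋃₀ (om.sep fun n => app e n = h ∧ ∀ k ∈ n, app e k ≠ h : ZFSet)

theorem kg_tml : Tm ZFm (fun _ v => kg_l (v 0) (v 1)) := by
  unfold kg_l
  refine Tm.sUnion (Tm.sep (R := fun _ v => app (v 1) (v 0) = v 2 ∧ ∀ k ∈ v 0, app (v 1) k ≠ v 2)
    ?_ Tm.om)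
  refine (Dfb.eq (Tm.app (Tm.var 1) (Tm.var 0)) (Tm.var 2)).and ?_
  refine (Dfb.ball (R := fun _ v => app (v 2) (v 0) ≠ v 3) ktr_zfm (Tm.var 0) ?_).congr
    fun M k v hv => Iff.rfl
  exact (Dfb.eq (Tm.app (Tm.var 2) (Tm.var 0)) (Tm.var 3)).not

theorem kg_first {e h : V} (he : Onto e om hf) (hh : h ∈ hf) :
    kg_l e h ∈ om ∧ app e (kg_l e h) = h := by
  obtain ⟨a, ha, hah⟩ := he.2 h hh
  obtain ⟨n0, rfl⟩ := mem_om.1 ha
  have ex : ∃ n : ℕ, app e (nS n) = h := ⟨n0, app_eq (svl_of_isFunc he.1) hah⟩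
  classical
  have h1 := Nat.find_spec ex
  have h2 : ∀ m < Nat.find ex, app e (nS m) ≠ h := fun m hm => Nat.find_min ex hm
  have key : kg_l e h = nS (Nat.find ex) := by
    unfold kg_l
    have : (om.sep fun n => app e n = h ∧ ∀ k ∈ n, app e k ≠ h : ZFSet) = {nS (Nat.find ex)} := by
      ext z
      rw [ZFSet.mem_sep, ZFSet.mem_singleton]
      constructor
      · rintro ⟨hz, h3, h4⟩
        obtain ⟨n, rfl⟩ := mem_om.1 hz
        rw [nS_inj]
        apply le_antisymm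
        · by_contra hlt
          exact h4 _ (nS_mem_nS.2 (not_le.1 hlt)) h1
        · exact Nat.find_min' ex h3
      · rintro rfl
        refine ⟨nS_mem_om _, h1, fun k hk => ?_⟩
        have hk' : k ∈ om := by
          unfold nS at hk
          rw [Ordinal.mem_toZFSet_iff] at hk
          obtain ⟨β, hβ, rfl⟩ := hk
          rw [Ordinal.mem_toZFSet_iff]
          exact ⟨β, hβ.trans (Ordinal.natCast_lt_omega0 _), rfl⟩
        obtain ⟨m, rfl⟩ := mem_om.1 hk'
        exact h2 m (nS_mem_nS.1 hk)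
    rw [this, ZFSet.sUnion_singleton]
  rw [key]
  exact ⟨nS_mem_om _, h1⟩

/-- the real which codes the function `f` -/
noncomputable def kg_w (j f : V) : V :=
  resS om fun n => ⋃₀ (imS (hf.sep fun h => app j h = n) fun h => app f h : ZFSet)

theorem kg_tmw (hA : T_AA) : Tm ZFm (fun _ v => kg_w (v 0) (v 1)) := by
  have thf : Tm ZFm (fun _ _ => hf) := hA.2.2.2.2.2.2.2.1
  unfold kg_w
  refine Tm.resS (g := fun _ u => ⋃₀ (imS (hf.sep fun h => app (u 1) h = u 0)
    fun h => app (u 2) h : ZFSet)) Tm.om (Tm.sUnion ?_)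
  refine Tm.image (f := fun _ u => hf.sep fun h => app (u 1) h = u 0)
    (g := fun _ u => app (u 3) (u 0)) ?_ (Tm.app (Tm.var 3) (Tm.var 0))
  exact Tm.sep (R := fun _ v => app (v 2) (v 0) = v 1)
    (Dfb.eq (Tm.app (Tm.var 2) (Tm.var 0)) (Tm.var 1)) thf

theorem kg_wv (hA : T_AA) (hG : T_AG) {j f : V} (ij : Inj j) (hf' : ZFSet.IsFunc hf hf f) :
    Rl (kg_w j f) ∧ ∀ h ∈ hf, app (kg_w j f) (app j h) = app f h := by
  have h0 : (∅ : V) ∈ hf := by
    have := hA.2.1 0
    rwa [nS_zero] at this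
  have key : ∀ h ∈ hf, (⋃₀ (imS (hf.sep fun h' => app j h' = app j h) fun h => app f h : ZFSet) :
      ZFSet) = app f h := by
    intro h hh
    have : (imS (hf.sep fun h' => app j h' = app j h) fun h => app f h) = {app f h} := by
      ext z
      rw [mem_imS, ZFSet.mem_singleton]
      constructor
      · rintro ⟨h', h1, rfl⟩
        rw [ZFSet.mem_sep] at h1
        rw [ij.2 h' h1.1 h hh h1.2]
      · rintro rfl
        exact ⟨h, ZFSet.mem_sep.2 ⟨hh, rfl⟩, rfl⟩
    rw [this, ZFSet.sUnion_singleton]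
  have v : ∀ n : ℕ, (⋃₀ (imS (hf.sep fun h => app j h = nS n) fun h => app f h : ZFSet) :
      ZFSet) ∈ hf := by
    intro n
    by_cases h1 : ∃ h ∈ hf, app j h = nS n
    · obtain ⟨h, hh, h2⟩ := h1
      rw [← h2, key h hh]
      exact app_mem hf' hh
    · have : (imS (hf.sep fun h => app j h = nS n) fun h => app f h) = ∅ := by
        rw [ZFSet.eq_empty]
        intro z hz
        obtain ⟨h', h3, -⟩ := mem_imS.1 hz
        rw [ZFSet.mem_sep] at h3
        exact h1 ⟨h', h3⟩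
      rw [this, ZFSet.sUnion_empty]
      exact h0
  obtain ⟨h1, h2⟩ := hG.2.2.2.2.2 (fun n => ⋃₀ (imS (hf.sep fun h => app j h = n)
    fun h => app f h : ZFSet)) v
  refine ⟨h1, fun h hh => ?_⟩
  obtain ⟨n, hn⟩ := mem_om.1 (app_mem ij.1 hh)
  rw [hn]
  refine (h2 n).trans ?_
  show (⋃₀ (imS (hf.sep fun h => app j h = nS n) fun h => app f h : ZFSet) : ZFSet) = app f h
  rw [← hn]
  exact key h hh

theorem t_kg (hA : T_AA) (hG : T_AG) : T_KG := by
  have thf : Tm ZFm (fun _ _ => hf) := hA.2.2.2.2.2.2.2.1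
  have h0 : (∅ : V) ∈ hf := by
    have := hA.2.1 0
    rwa [nS_zero] at this
  refine ⟨?_, ?_, ?_, ?_⟩
  · intro W kz
    rcases hA.2.2.2.2.2.2.2.2 W kz with he | ⟨e, we, he⟩
    · exact absurd (he ▸ h0 : (∅ : V) ∈ (∅ : V)) (ZFSet.notMem_empty _)
    · refine ⟨resS hf fun h => kg_l e h, ?_, isFunc_resS _ _ _ fun h hh => (kg_first he hh).1, ?_⟩
      · have t1 : Tm ZFm (fun _ v => resS hf fun h => kg_l (v 0) h) :=
          Tm.resS (g := fun _ u => kg_l (u 1) (u 0)) thf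
            (Tm.at2 (F := fun _ x y => kg_l x y) kg_tml (Tm.var 1) (Tm.var 0))
        exact t1.1 W kz (cons e fun _ => ∅) (In.cons (fun _ => kz.mempty) we)
      · intro h hh k hk h1
        rw [app_resS hh, app_resS hk] at h1
        rw [← (kg_first he hh).2, h1, (kg_first he hk).2]
  · unfold cf
    refine Tm.sel ?_ (Tm.app (Tm.var 1) (Tm.snd (Tm.var 3)))
      (Tm.app (Tm.var 2) (Tm.app (Tm.var 0) (Tm.var 3)))
    unfold ky
    refine (Dfb.bex (R := fun _ v => v 4 = ZFSet.pair (nS 9) (v 0)) ktr_zfm Tm.om ?_).congr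
      fun M k v hv => Iff.rfl
    exact Dfb.eq (Tm.var 4) (Tm.pair (Tm.nS 9) (Tm.var 0))
  · intro j x w ij rx rw'
    refine ⟨fun h hh => ?_, fun n hn => ?_⟩
    · unfold cf
      by_cases h1 : ∃ n ∈ om, h = ky 9 n
      · rw [sel_pos h1]
        obtain ⟨n, hn, rfl⟩ := h1
        unfold ky
        rw [snd_pair]
        exact app_mem rx hn
      · rw [sel_neg h1]
        exact app_mem rw' (app_mem ij.1 hh)
    · unfold cf
      rw [sel_pos ⟨n, hn, rfl⟩]
      unfold ky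
      rw [snd_pair]
  · intro W kz j x f wj ij rx wf ff h9
    obtain ⟨r, v⟩ := kg_wv hA hG ij ff
    refine ⟨kg_w j f, (kg_tmw hA).1 W kz (cons j (cons f fun _ => ∅))
      (In.cons (In.cons (fun _ => kz.mempty) wf) wj), r, fun h hh => ?_⟩
    unfold cf
    by_cases h1 : ∃ n ∈ om, h = ky 9 n
    · rw [sel_pos h1]
      obtain ⟨n, hn, rfl⟩ := h1
      rw [h9 n hn]
      unfold ky
      rw [snd_pair]
    · rw [sel_neg h1]
      exact v h hh

end SE
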