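import Pool.Agent.H9.SE.TarK

/-! KI: the collapse of a relation with a rank function. -/

open Ordinal Order Set
open scoped ZFSet

namespace SE

open SF CAA

/-- the collapse of `x`, guarded by the rank `a` -/
noncomputable def ki_c (T E r a x : V) : V :=
  ZFSet.range fun z : {z // z ∈ T.sep fun z => ZFSet.pair z x ∈ E ∧ app r z ∈ a} =>
    ki_c T E r (app r z.1) z.1
termination_by a.rank
decreasing_by exact ZFSet.rank_lt_of_mem (ZFSet.mem_sep.1 z.2).2.2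

theorem ki_mem {T E r a x y : V} : y ∈ ki_c T E r a x ↔
    ∃ z ∈ T, (ZFSet.pair z x ∈ E ∧ app r z ∈ a) ∧ y = ki_c T E r (app r z) z := by
  rw [ki_c, ZFSet.mem_range]
  constructor
  · rintro ⟨⟨z, hz⟩, rfl⟩
    obtain ⟨h1, h2⟩ := ZFSet.mem_sep.1 hz
    exact ⟨z, h1, h2, rfl⟩
  · rintro ⟨z, h1, h2, rfl⟩
    exact ⟨⟨z, ZFSet.mem_sep.2 ⟨h1, h2⟩⟩, rfl⟩

theorem ki_tm : Tm ZFm (fun _ v => ki_c (v 1) (v 2) (v 3) (fst (v 0)) (snd (v 0))) := by
  have tE : Tm ZFm (fun _ v => imS ((v 1).sep fun z => ZFSet.pair z (snd (v 0)) ∈ v 2 ∧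
      app (v 3) z ∈ fst (v 0)) fun z => ZFSet.pair (app (v 3) z) z) := by
    refine Tm.image (f := fun _ v => (v 1).sep fun z => ZFSet.pair z (snd (v 0)) ∈ v 2 ∧
      app (v 3) z ∈ fst (v 0)) (g := fun _ u => ZFSet.pair (app (u 4) (u 0)) (u 0)) ?_
      (Tm.pair (Tm.app (Tm.var 4) (Tm.var 0)) (Tm.var 0))
    refine Tm.sep (R := fun _ v => ZFSet.pair (v 0) (snd (v 1)) ∈ v 3 ∧
      app (v 4) (v 0) ∈ fst (v 1)) ?_ (Tm.var 1)
    exact (Dfb.pairMem (Tm.var 0) (Tm.snd (Tm.var 1)) (Tm.var 3)).and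
      (Dfb.mem (Tm.app (Tm.var 4) (Tm.var 0)) (Tm.fst (Tm.var 1)))
  refine tm_recu (ext := fun _ v => imS ((v 1).sep fun z => ZFSet.pair z (snd (v 0)) ∈ v 2 ∧
      app (v 3) z ∈ fst (v 0)) fun z => ZFSet.pair (app (v 3) z) z)
    (Φ := fun _ u => imS (imS ((u 2).sep fun z => ZFSet.pair z (snd (u 1)) ∈ u 3 ∧
      app (u 4) z ∈ fst (u 1)) fun z => ZFSet.pair (app (u 4) z) z) fun q => app (u 0) q)
    (fun q => (fst q).rank) tE ?_ ?_ ?_
  · exact Tm.image (g := fun _ u => app (u 1) (u 0)) (tE.rn fun i => i + 1)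
      (Tm.app (Tm.var 1) (Tm.var 0))
  · intro M k v hv y hy
    obtain ⟨z, hz, rfl⟩ := mem_imS.1 hy
    show (fst (ZFSet.pair (app (v 3) z) z)).rank < (fst (v 0)).rank
    rw [fst_pair]
    exact ZFSet.rank_lt_of_mem (ZFSet.mem_sep.1 hz).2.2
  · intro M k v hv
    ext y
    rw [ki_mem]
    simp only [mem_imS, cons_zero, cons_succ]
    constructor
    · rintro ⟨z, h1, h2, rfl⟩
      refine ⟨ZFSet.pair (app (v 3) z) z, ⟨z, ZFSet.mem_sep.2 ⟨h1, h2⟩, rfl⟩, ?_⟩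
      rw [app_resS (mem_imS.2 ⟨z, ZFSet.mem_sep.2 ⟨h1, h2⟩, rfl⟩), fst_pair, snd_pair]
    · rintro ⟨_, ⟨z, hz, rfl⟩, rfl⟩
      refine ⟨z, (ZFSet.mem_sep.1 hz).1, (ZFSet.mem_sep.1 hz).2, ?_⟩
      rw [app_resS (mem_imS.2 ⟨z, hz, rfl⟩), fst_pair, snd_pair]

/-- KI -/
theorem t_ki : T_KI := by
  intro W k T E r hT hE hr rr
  refine ⟨resS T fun x => ki_c T E r (app r x) x, ?_, svl_resS _ _, dm_resS _ _, ?_⟩
  · have t1 : Tm ZFm (fun _ v => resS (v 0) fun x => ki_c (v 0) (v 1) (v 2) (app (v 2) x) x) := by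
      refine Tm.resS (f := fun _ v => v 0)
        (g := fun _ u => ki_c (u 1) (u 2) (u 3) (app (u 3) (u 0)) (u 0)) (Tm.var 0) ?_
      refine (ki_tm.comp (fun i => if i = 0 then fun _ v => ZFSet.pair (app (v 3) (v 0)) (v 0)
        else fun _ v => v i) ?_).congr fun M k v hv => ?_
      · intro i
        by_cases h0 : i = 0
        · simp only [h0, if_true]
          exact Tm.pair (Tm.app (Tm.var 3) (Tm.var 0)) (Tm.var 0)
        · simp only [h0, if_false]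
          exact Tm.var i
      · simp
    exact t1.1 W k (cons T (cons E (cons r fun _ => ∅)))
      (In.cons (In.cons (In.cons (fun _ => k.mempty) hr) hE) hT)
  · intro m hm y
    rw [app_resS hm, ki_mem]
    constructor
    · rintro ⟨z, hz, ⟨h1, -⟩, rfl⟩
      refine ⟨z, hz, h1, ?_⟩
      rw [app_resS hz]
    · rintro ⟨z, hz, h1, rfl⟩
      refine ⟨z, hz, ⟨h1, rr.lt z hz m hm h1⟩, ?_⟩
      rw [app_resS hz]

end SE
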