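import Pool.Agent.H9.SE.TarK
import Pool.Agent.H7.SF.ReflS

/-! KO1, KO2: good values give the conditions. -/

open Ordinal Order Set
open scoped ZFSet

namespace SE

open SF CAA

theorem ko_hf0 (hA : T_AA) : (∅ : V) ∈ hf := by
  have := hA.2.1 0
  rwa [nS_zero] at this

/-- truth under the enumeration -/
theorem ko_sat {T g : V} (hg : Enm T g) (φ : Fml) {t : V} (ht : t ∈ PL hf) :
    mpl g t ∈ sS T ∅ (cd φ) ↔ Sat (· ∈ T) φ fun i => app g (vn i t) := by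
  obtain ⟨d, l, rfl, hd, hl⟩ := mem_PL.1 ht
  rw [mpl_pl, ← sat_iff_sS (app_mem hg.on.1 hd) (by
    intro p hp
    obtain ⟨q, hq, rfl⟩ := List.mem_map.1 hp
    exact app_mem hg.on.1 (hl q hq))]
  have e : (fun i => (l.map (app g)).getD i (app g d)) = fun i => app g (vn i (pl d l)) := by
    funext i
    rw [vn_pl, ← getD_map_app]
  rw [e]

theorem ko_psh {y t : V} (hy : y ∈ hf) (ht : t ∈ PL hf) : psh y t ∈ PL hf := by
  obtain ⟨d, l, rfl, hd, hl⟩ := mem_PL.1 ht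
  rw [psh_pl]
  refine mem_PL.2 ⟨d, y :: l, rfl, hd, ?_⟩
  intro p hp
  rcases List.mem_cons.1 hp with rfl | hp
  · exact hy
  · exact hl p hp

theorem ko_mpsh {g y t : V} (ht : t ∈ PL hf) : mpl g (psh y t) = psh (app g y) (mpl g t) := by
  obtain ⟨d, l, rfl, hd, hl⟩ := mem_PL.1 ht
  rw [psh_pl, mpl_pl, mpl_pl, psh_pl]
  rfl

theorem ko_vn {t : V} (ht : t ∈ PL hf) (i : ℕ) : vn i t ∈ hf := by
  obtain ⟨d, l, rfl, hd, hl⟩ := mem_PL.1 ht
  rw [vn_pl, List.getD_eq_getElem?_getD]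
  cases h : l[i]? with
  | none => exact hd
  | some a => exact hl a (List.mem_of_getElem? h)

theorem ko_pl2 (hA : T_AA) {m n : V} (hm : m ∈ hf) (hn : n ∈ hf) : pl ∅ [m, n] ∈ PL hf := by
  refine mem_PL.2 ⟨∅, [m, n], rfl, ko_hf0 hA, ?_⟩
  intro p hp
  rcases List.mem_cons.1 hp with rfl | hp
  · exact hm
  · rcases List.mem_cons.1 hp with rfl | hp
    · exact hn
    · simp at hp

/-- KO1 (with the facts on `hf`) -/
theorem ko_main (hA : T_AA) (T g : V) (F : V → V) (hg : Enm T g) (tot : Tot F)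
    (hF : ∀ h ∈ hf, Gb T g h (F h)) :
    (∀ (φ : Fml), ∀ t ∈ PL hf, (tv F (cd φ) t ↔ Sat (· ∈ T) φ fun i => app g (vn i t))) ∧
    (∀ m ∈ hf, ∀ n ∈ hf, (em F m n ↔ app g m ∈ app g n)) ∧
    (∀ m ∈ hf, ∀ n ∈ hf, (eqv F m n ↔ app g m = app g n)) ∧ MC1 F := by
  have hp := hA.2.2.2.1
  have hn := hA.2.1
  have h0 := ko_hf0 hA
  have hlw : ∀ t ∈ PL hf, t ∈ hf := by
    intro t ht
    obtain ⟨d, l, rfl, hd, hl⟩ := mem_PL.1 ht
    refine hp _ hd _ ?_
    clear ht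
    induction l with
    | nil => exact h0
    | cons a l ih =>
      exact hp _ (hl a (by simp)) _ (ih fun p hp' => hl p (by simp [hp']))
  have hcd : ∀ φ : Fml, cd φ ∈ hf := by
    intro φ
    induction φ with
    | mem i j => exact hp _ (hn 0) _ (hp _ (hn i) _ (hn j))
    | eq i j => exact hp _ (hn 1) _ (hp _ (hn i) _ (hn j))
    | prd i => exact hp _ (hn 2) _ (hn i)
    | neg φ ih => exact hp _ (hn 3) _ ih
    | and φ ψ ih1 ih2 => exact hp _ (hn 4) _ (hp _ ih1 _ ih2)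
    | ex φ ih => exact hp _ (hn 5) _ ih
  have k1 : ∀ (φ : Fml), ∀ t ∈ PL hf,
      (tv F (cd φ) t ↔ Sat (· ∈ T) φ fun i => app g (vn i t)) := by
    intro φ t ht
    rw [← ko_sat hg φ ht]
    exact (hF _ (hp _ (hn 0) _ (hp _ (hcd φ) _ (hlw t ht)))).tr _ (cd_mem_CD φ) t ht rfl
  have e2 : ∀ m n : V, (fun i => app g (vn i (pl ∅ [m, n]))) 0 = app g m ∧
      (fun i => app g (vn i (pl ∅ [m, n]))) 1 = app g n := by
    intro m n
    constructor <;> simp [vn_pl]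
  have k2 : ∀ m ∈ hf, ∀ n ∈ hf, (em F m n ↔ app g m ∈ app g n) := by
    intro m hm n hn'
    refine (k1 (.mem 0 1) _ (ko_pl2 hA hm hn')).trans ?_
    obtain ⟨h1, h2⟩ := e2 m n
    show (fun i => app g (vn i (pl ∅ [m, n]))) 0 ∈ (fun i => app g (vn i (pl ∅ [m, n]))) 1 ↔ _
    rw [h1, h2]
  have k3 : ∀ m ∈ hf, ∀ n ∈ hf, (eqv F m n ↔ app g m = app g n) := by
    intro m hm n hn'
    refine (k1 (.eq 0 1) _ (ko_pl2 hA hm hn')).trans ?_
    obtain ⟨h1, h2⟩ := e2 m n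
    show (fun i => app g (vn i (pl ∅ [m, n]))) 0 = (fun i => app g (vn i (pl ∅ [m, n]))) 1 ↔ _
    rw [h1, h2]
  refine ⟨k1, k2, k3, ?_⟩
  constructor
  · intro i j t ht
    rw [k1 _ t ht, k2 _ (ko_vn ht i) _ (ko_vn ht j)]
    exact Iff.rfl
  · intro i j t ht
    rw [k1 _ t ht, k3 _ (ko_vn ht i) _ (ko_vn ht j)]
    exact Iff.rfl
  · intro i t ht
    rw [k1 _ t ht]
    exact fun h => h
  · intro c hc t ht
    obtain ⟨φ, rfl⟩ := mem_CD.1 hc
    rw [k1 φ t ht]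
    exact k1 (.neg φ) t ht
  · intro c hc d hd t ht
    obtain ⟨φ, rfl⟩ := mem_CD.1 hc
    obtain ⟨ψ, rfl⟩ := mem_CD.1 hd
    rw [k1 φ t ht, k1 ψ t ht]
    exact k1 (.and φ ψ) t ht
  · intro c hc t ht h
    obtain ⟨φ, rfl⟩ := mem_CD.1 hc
    have hk : ky 13 (ZFSet.pair (cd φ) t) ∈ hf := hp _ (hn 13) _ (hp _ (hcd φ) _ (hlw t ht))
    have h1 : Sat (· ∈ T) (.ex φ) fun i => app g (vn i t) := (k1 (.ex φ) t ht).1 h
    obtain ⟨x, hx, h2⟩ := h1
    obtain ⟨y, hy, hyx⟩ := hg.on.2 x hx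
    have hyx' : app g y = x := app_eq (svl_of_isFunc hg.on.1) hyx
    have h3 : mpl g (psh y t) ∈ sS T ∅ (cd φ) := by
      rw [ko_sat hg φ (ko_psh hy ht)]
      have e : (fun i => app g (vn i (psh y t))) = cons x fun i => app g (vn i t) := by
        have := vn_psh y t
        funext i
        have h4 := congrFun this i
        rw [h4]
        cases i with
        | zero => exact hyx'
        | succ i => rfl
      rw [e]
      exact h2
    have h4 := (hF _ hk).ex _ (cd_mem_CD φ) t ht rfl ⟨y, hy, h3⟩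
    rw [ko_sat hg φ (ko_psh (tot _ hk) ht)] at h4
    exact (k1 φ _ (ko_psh (tot _ hk) ht)).2 h4
  · intro c hc t ht y hy h
    obtain ⟨φ, rfl⟩ := mem_CD.1 hc
    have h1 := (k1 φ _ (ko_psh hy ht)).1 h
    refine (k1 (.ex φ) t ht).2 ⟨app g y, app_mem hg.on.1 hy, ?_⟩
    have e : (fun i => app g (vn i (psh y t))) = cons (app g y) fun i => app g (vn i t) := by
      have := vn_psh y t
      funext i
      have h4 := congrFun this i
      rw [h4]
      cases i with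
      | zero => rfl
      | succ i => rfl
    rw [e] at h1
    exact h1

/-- KO1 -/
theorem t_ko1 (hA : T_AA) : T_KO1 := fun T g F hg tot hF => ko_main hA T g F hg tot hF

/-- KO2 -/
theorem t_ko2 (hA : T_AA) : T_KO2 := by
  intro T g F hg tot hF
  obtain ⟨k1, k2, k3, -⟩ := ko_main hA T g F hg tot hF
  have hp := hA.2.2.2.1
  have hn := hA.2.1
  have h0 := ko_hf0 hA
  have hom : om ⊆ hf := hA.2.2.1
  have hlw : ∀ t ∈ PL hf, t ∈ hf := by
    intro t ht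
    obtain ⟨d, l, rfl, hd, hl⟩ := mem_PL.1 ht
    refine hp _ hd _ ?_
    clear ht
    induction l with
    | nil => exact h0
    | cons a l ih =>
      exact hp _ (hl a (by simp)) _ (ih fun p hp' => hl p (by simp [hp']))
  have hcd : ∀ φ : Fml, cd φ ∈ hf := by
    intro φ
    induction φ with
    | mem i j => exact hp _ (hn 0) _ (hp _ (hn i) _ (hn j))
    | eq i j => exact hp _ (hn 1) _ (hp _ (hn i) _ (hn j))
    | prd i => exact hp _ (hn 2) _ (hn i)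
    | neg φ ih => exact hp _ (hn 3) _ ih
    | and φ ψ ih1 ih2 => exact hp _ (hn 4) _ (hp _ ih1 _ ih2)
    | ex φ ih => exact hp _ (hn 5) _ ih
  have hnm : ∀ h ∈ hf, nm h ∈ hf := fun h hh => hp _ (hn 1) _ hh
  have gT : ∀ m ∈ hf, app g m ∈ T := fun m hm => app_mem hg.on.1 hm
  have trh : hf.IsTransitive := hA.1
  constructor
  · constructor
    · intro m hm n hn' z hz h
      rw [k2 z hz m hm, k2 z hz n hn', (k3 m hm n hn').1 h]
    · intro z hz z' hz' m hm h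
      rw [k2 z hz m hm, k2 z' hz' m hm, (k3 z hz z' hz').1 h]
    · intro m hm n hn' h
      have hk : ky 2 (ZFSet.pair m n) ∈ hf := hp _ (hn 2) _ (hp _ hm _ hn')
      rw [k2 _ (tot _ hk) m hm, k2 _ (tot _ hk) n hn']
      exact (hF _ hk).e3 m hm n hn' rfl fun h1 => h ((k3 m hm n hn').2 h1)
    · intro h hh h' hh'
      have hh2 : h' ∈ hf := trh h hh hh'
      rw [k2 _ (hnm h' hh2) _ (hnm h hh), hg.nm h' hh2, hg.nm h hh]
      exact hh'
    · intro h hh z hz h1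
      have hk : ky 3 (ZFSet.pair z h) ∈ hf := hp _ (hn 3) _ (hp _ hz _ hh)
      rw [k2 z hz _ (hnm h hh), hg.nm h hh] at h1
      have h2 := (hF _ hk).n2 z hz h hh rfl h1
      have h3 : app g z ∈ hf := trh h hh h1
      rw [h2]
      refine ⟨h1, (k3 z hz _ (hnm _ h3)).2 (hg.nm _ h3).symm⟩
    · intro n hn'
      rw [k2 _ (hnm n (hom hn')) _ (hn 1), hg.nm n (hom hn'), hg.om]
      exact hn'
    · intro z hz h1
      have hk : ky 4 z ∈ hf := hp _ (hn 4) _ hz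
      rw [k2 z hz _ (hn 1), hg.om] at h1
      have h2 := (hF _ hk).o2 z hz rfl h1
      rw [h2]
      exact ⟨h1, (k3 z hz _ (hnm _ (hom h1))).2 (hg.nm _ (hom h1)).symm⟩
    · intro n hn'
      have hk : ky 9 n ∈ hf := hp _ (hn 9) _ (hom hn')
      have h2 := (hF _ hk).x9 n hn' rfl
      have h3 : ZFSet.pair n (F (ky 9 n)) ∈ hf := hp _ (hom hn') _ (tot _ hk)
      rw [k2 _ (hnm _ h3) _ h0, hg.nm _ h3, h2]
      exact pair_app_mem hg.rl hn'
    · intro z hz h1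
      have hk : ky 5 z ∈ hf := hp _ (hn 5) _ hz
      rw [k2 z hz _ h0] at h1
      obtain ⟨h2, h3⟩ := (hF _ hk).x2 z hz rfl h1
      refine ⟨h2, ?_⟩
      have hk9 : ky 9 (F (ky 5 z)) ∈ hf := hp _ (hn 9) _ (hom h2)
      have h4 := (hF _ hk9).x9 _ h2 rfl
      have h5 : ZFSet.pair (F (ky 5 z)) (F (ky 9 (F (ky 5 z)))) ∈ hf :=
        hp _ (hom h2) _ (tot _ hk9)
      rw [k3 z hz _ (hnm _ h5), hg.nm _ h5, h4]
      exact h3
  · constructor
    · intro m hm n hn' z hz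
      have hk : ky 6 (ZFSet.pair m n) ∈ hf := hp _ (hn 6) _ (hp _ hm _ hn')
      rw [k2 z hz _ (tot _ hk), (hF _ hk).pr m hm n hn' rfl, k3 z hz m hm, k3 z hz n hn',
        ZFSet.mem_pair]
    · intro m hm z hz u hu h1 h2
      have hk : ky 7 m ∈ hf := hp _ (hn 7) _ hm
      rw [k2 z hz _ (tot _ hk), (hF _ hk).u1 m hm rfl, ZFSet.mem_sUnion]
      exact ⟨app g u, (k2 u hu m hm).1 h2, (k2 z hz u hu).1 h1⟩
    · intro m hm z hz h1
      have hk : ky 7 m ∈ hf := hp _ (hn 7) _ hm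
      have hk8 : ky 8 (ZFSet.pair m z) ∈ hf := hp _ (hn 8) _ (hp _ hm _ hz)
      rw [k2 z hz _ (tot _ hk), (hF _ hk).u1 m hm rfl, ZFSet.mem_sUnion] at h1
      rw [k2 z hz _ (tot _ hk8), k2 _ (tot _ hk8) m hm]
      exact (hF _ hk8).u2 m hm z hz rfl h1
    · intro c hc t ht a ha z hz
      obtain ⟨φ, rfl⟩ := mem_CD.1 hc
      have hk : ky 10 (ZFSet.pair (cd φ) (ZFSet.pair t a)) ∈ hf :=
        hp _ (hn 10) _ (hp _ (hcd φ) _ (hp _ (hlw t ht) _ ha))
      rw [k2 z hz _ (tot _ hk), (hF _ hk).sp _ hc t ht a ha rfl, ZFSet.mem_sep, k2 z hz a ha,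
        k1 φ _ (ko_psh hz ht), ← ko_sat hg φ (ko_psh hz ht), ko_mpsh ht]
    · intro c hc t ht a ha x hx y hy h1 h2 b hb u hu
      obtain ⟨φ, rfl⟩ := mem_CD.1 hc
      have hk : ky 11 (ZFSet.pair (cd φ) (ZFSet.pair t a)) ∈ hf :=
        hp _ (hn 11) _ (hp _ (hcd φ) _ (hp _ (hlw t ht) _ ha))
      have hbf : b ∈ hf := hb ▸ tot _ hk
      have hk2 : ky 12 (ZFSet.pair (cd φ) (ZFSet.pair t (ZFSet.pair b x))) ∈ hf :=
        hp _ (hn 12) _ (hp _ (hcd φ) _ (hp _ (hlw t ht) _ (hp _ hbf _ hx)))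
      have huf : u ∈ hf := hu ▸ tot _ hk2
      have hG := (hF _ hk).co _ hc t ht a ha rfl (app g x) ((k2 x hx a ha).1 h1)
        ⟨app g y, gT y hy, ?_⟩
      · rw [← hb] at hG
        obtain ⟨y', hy', h3⟩ := hG
        have hG2 := (hF _ hk2).cw _ hc t ht b hbf x hx rfl ⟨y', hy', h3⟩
        rw [← hu] at hG2
        rw [k2 u huf b hbf, k1 φ _ (ko_psh huf (ko_psh hx ht)),
          ← ko_sat hg φ (ko_psh huf (ko_psh hx ht)), ko_mpsh (ko_psh hx ht), ko_mpsh ht]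
        exact hG2
      · rw [k1 φ _ (ko_psh hy (ko_psh hx ht)), ← ko_sat hg φ (ko_psh hy (ko_psh hx ht)),
          ko_mpsh (ko_psh hx ht), ko_mpsh ht] at h2
        exact h2

end SE
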