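import Pool.Agent.H9.SE.TarK

/-! KQ: a closed condition together with well-foundedness is a `Π¹₁` condition. -/

open Ordinal Order Set
open scoped ZFSet

namespace SE

open SF CAA

/-- the place at which the value at the key `h` is coded -/
noncomputable def kq_n (j h : V) : V := sel (∃ n ∈ om, h = ky 9 n) (snd h) (app j h)
/-- first part -/
noncomputable def kq_x (s : V) : V := resS (dm s) fun n => fst (fst (app s n))
/-- second part -/
noncomputable def kq_w (s : V) : V := resS (dm s) fun n => snd (fst (app s n))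

/-- the finite function `κ` is confirmed by `s` -/
def kq_P (j κ s : V) : Prop := ∀ z ∈ κ, ∃ h ∈ hf, kq_n j h ∈ dm s ∧
  z = ZFSet.pair h (cf j (kq_x s) (kq_w s) h)

/-- the key for membership -/
noncomputable def kq_k (a b : V) : V :=
  ky 0 (ZFSet.pair (cd (.mem 0 1)) (pl ∅ [a, b]))

/-- the open set -/
def kq_U (j K s : V) : Prop := ∅ ∈ dm s ∧
  ((snd (app s ∅) ∈ om ∧ snd (app s ∅) ⊆ dm s ∧ ∀ κ ∈ K, ¬ kq_P j κ (rs s (snd (app s ∅)))) ∨
   (snd (app s ∅) ∉ om ∧ ∃ n ∈ om, insert (insert n n) (insert n n) ∈ dm s ∧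
     kq_n j (kq_k (snd (app s (insert (insert n n) (insert n n)))) (snd (app s (insert n n)))) ∈ dm s ∧
     cf j (kq_x s) (kq_w s)
      (kq_k (snd (app s (insert (insert n n) (insert n n)))) (snd (app s (insert n n)))) ≠ nS 1))

theorem kq_dfbk : Dfb ZFm (fun _ v => ∃ n ∈ om, v 0 = ky 9 n) := by
  unfold ky
  refine (Dfb.bex (R := fun _ v => v 1 = ZFSet.pair (nS 9) (v 0)) ktr_zfm Tm.om ?_).congr
    fun M k v hv => Iff.rfl
  exact Dfb.eq (Tm.var 1) (Tm.pair (Tm.nS 9) (Tm.var 0))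

theorem kq_tmn : Tm ZFm (fun _ v => kq_n (v 0) (v 1)) := by
  unfold kq_n
  exact Tm.sel (kq_dfbk.rn fun _ => 1) (Tm.snd (Tm.var 1)) (Tm.app (Tm.var 0) (Tm.var 1))

theorem kq_tmx : Tm ZFm (fun _ v => kq_x (v 0)) :=
  Tm.resS (g := fun _ u => fst (fst (app (u 1) (u 0)))) (Tm.dm (Tm.var 0))
    (Tm.fst (Tm.fst (Tm.app (Tm.var 1) (Tm.var 0))))

theorem kq_tmw : Tm ZFm (fun _ v => kq_w (v 0)) :=
  Tm.resS (g := fun _ u => snd (fst (app (u 1) (u 0)))) (Tm.dm (Tm.var 0))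
    (Tm.snd (Tm.fst (Tm.app (Tm.var 1) (Tm.var 0))))

theorem kq_tmk : Tm ZFm (fun _ v => kq_k (v 0) (v 1)) := by
  show Tm ZFm (fun _ v => ZFSet.pair (nS 0) (ZFSet.pair (ZFSet.pair (nS 0)
    (ZFSet.pair (nS 0) (nS 1))) (ZFSet.pair ∅ (ZFSet.pair (v 0) (ZFSet.pair (v 1) ∅)))))
  exact Tm.pair (Tm.nS 0) (Tm.pair (Tm.pair (Tm.nS 0) (Tm.pair (Tm.nS 0) (Tm.nS 1)))
    (Tm.pair Tm.empty (Tm.pair (Tm.var 0) (Tm.pair (Tm.var 1) Tm.empty))))

/-- the value of `cf` on the parts of `s` -/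
noncomputable def kq_c (j s h : V) : V := cf j (kq_x s) (kq_w s) h

theorem kq_tmc (hG : T_KG) : Tm ZFm (fun _ v => kq_c (v 0) (v 1) (v 2)) := by
  unfold kq_c
  have t1 : Tm ZFm (fun _ v => cf (v 0) (v 1) (v 2) (v 3)) := hG.2.1
  exact (t1.comp (fun i => if i = 0 then fun _ v => v 0 else if i = 1 then fun _ v => kq_x (v 1)
    else if i = 2 then fun _ v => kq_w (v 1) else fun _ v => v 2) (by
      intro i
      by_cases h0 : i = 0
      · simp only [h0, if_true]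
        exact Tm.var 0
      by_cases h1 : i = 1
      · simp only [h1, if_true]
        exact kq_tmx.rn fun _ => 1
      by_cases h2 : i = 2
      · simp only [h2]
        exact kq_tmw.rn fun _ => 1
      simp only [h0, h1, h2, if_false]
      exact Tm.var 2)).congr fun M k v hv => by simp

variable {f g h : (V → Prop) → (ℕ → V) → V}

theorem kq_dfbP (hA : T_AA) (hG : T_KG) : Dfb ZFm (fun _ v => kq_P (v 0) (v 1) (v 2)) := by
  have thf : Tm ZFm (fun _ _ => hf) := hA.2.2.2.2.2.2.2.1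
  unfold kq_P
  refine (Dfb.ball (R := fun _ v => ∃ h ∈ hf, kq_n (v 1) h ∈ dm (v 3) ∧
    v 0 = ZFSet.pair h (kq_c (v 1) (v 3) h)) ktr_zfm (Tm.var 1) ?_).congr fun M k v hv => Iff.rfl
  refine (Dfb.bex (R := fun _ v => kq_n (v 2) (v 0) ∈ dm (v 4) ∧
    v 1 = ZFSet.pair (v 0) (kq_c (v 2) (v 4) (v 0))) ktr_zfm thf ?_).congr fun M k v hv => Iff.rfl
  exact (Dfb.mem (Tm.at2 (F := fun _ x y => kq_n x y) kq_tmn (Tm.var 2) (Tm.var 0))
    (Tm.dm (Tm.var 4))).and (Dfb.eq (Tm.var 1) (Tm.pair (Tm.var 0)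
      (Tm.at3 (F := fun _ x y z => kq_c x y z) (kq_tmc hG) (Tm.var 2) (Tm.var 4) (Tm.var 0))))

theorem kq_dfbU (hA : T_AA) (hAI : T_AI) (hG : T_KG) :
    Dfb ZFm (fun _ v => kq_U (v 0) (v 1) (v 2)) := by
  have trs : Tm ZFm (fun _ v => rs (v 0) (v 1)) := hAI.2.1
  unfold kq_U
  have t0 : ∀ i, Tm ZFm (fun _ v => snd (app (v i) ∅)) := fun i =>
    Tm.snd (Tm.app (Tm.var i) Tm.empty)
  refine Dfb.and (Dfb.mem Tm.empty (Tm.dm (Tm.var 2))) (Dfb.or ?_ ?_)
  · refine Dfb.and (Dfb.mem (t0 2) Tm.om) (Dfb.and (Dfb.subset (t0 2) (Tm.dm (Tm.var 2))) ?_)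
    refine (Dfb.ball (R := fun _ v => ¬ kq_P (v 1) (v 0) (rs (v 3) (snd (app (v 3) ∅)))) ktr_zfm
      (Tm.var 1) ?_).congr fun M k v hv => Iff.rfl
    exact (Dfb.at3 (P := fun _ x y z => kq_P x y z) (kq_dfbP hA hG) (Tm.var 1) (Tm.var 0)
      (Tm.at2 (F := fun _ x y => rs x y) trs (Tm.var 3) (t0 3))).not
  · refine Dfb.and (Dfb.mem (t0 2) Tm.om).not ?_
    refine (Dfb.bex (R := fun _ v => insert (insert (v 0) (v 0)) (insert (v 0) (v 0)) ∈ dm (v 3) ∧
     kq_n (v 1) (kq_k (snd (app (v 3) (insert (insert (v 0) (v 0)) (insert (v 0) (v 0)))))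
      (snd (app (v 3) (insert (v 0) (v 0))))) ∈ dm (v 3) ∧
     kq_c (v 1) (v 3)
      (kq_k (snd (app (v 3) (insert (insert (v 0) (v 0)) (insert (v 0) (v 0)))))
      (snd (app (v 3) (insert (v 0) (v 0))))) ≠ nS 1) ktr_zfm Tm.om ?_).congr
      fun M k v hv => Iff.rfl
    have i1 : Tm ZFm (fun _ v => (insert (v 0) (v 0) : V)) := Tm.ins (Tm.var 0) (Tm.var 0)
    have i2 : Tm ZFm (fun _ v => (insert (insert (v 0) (v 0)) (insert (v 0) (v 0)) : V)) :=
      Tm.ins i1 i1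
    have tk : Tm ZFm (fun _ v => kq_k (snd (app (v 3) (insert (insert (v 0) (v 0))
        (insert (v 0) (v 0))))) (snd (app (v 3) (insert (v 0) (v 0))))) :=
      Tm.at2 (F := fun _ x y => kq_k x y) kq_tmk (Tm.snd (Tm.app (Tm.var 3) i2))
        (Tm.snd (Tm.app (Tm.var 3) i1))
    refine Dfb.and (Dfb.mem i2 (Tm.dm (Tm.var 3))) (Dfb.and ?_ ?_)
    · exact Dfb.mem (Tm.at2 (F := fun _ x y => kq_n x y) kq_tmn (Tm.var 1) tk) (Tm.dm (Tm.var 3))
    · exact (Dfb.eq (Tm.at3 (F := fun _ x y z => kq_c x y z) (kq_tmc hG) (Tm.var 1) (Tm.var 3) tk)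
        (Tm.nS 1)).not

theorem kq_seq (hF : T_AF) (hG : T_AG) (hH : T_AH) {x w v : V} (hx : Rl x) (hw : Rl w) (hv : Rl v)
    (m : ℕ) : Rl (prl (prl x w) v) ∧ Sq m (rs (prl (prl x w) v) (nS m)) ∧
    dm (rs (prl (prl x w) v) (nS m)) = nS m ∧
    ∀ i < m, app (rs (prl (prl x w) v) (nS m)) (nS i) =
      ZFSet.pair (ZFSet.pair (app x (nS i)) (app w (nS i))) (app v (nS i)) := by
  obtain ⟨h1, h2⟩ := hH.1 x w hx hw
  obtain ⟨h3, h4⟩ := hH.1 (prl x w) v h1 hv
  obtain ⟨h5, h6, h7, h8⟩ := (hG.1 _ h3).2.2.1 m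
  refine ⟨h3, h6, (hF.2.2.2.2.1 _ _ h6).2.2.1, fun i hi => ?_⟩
  rw [h8 i hi, h4, h2]

theorem kq_place (j x w : V) (hj : Inj j) {h : V} (hh : h ∈ hf) : ∃ i : ℕ, kq_n j h = nS i := by
  unfold kq_n
  by_cases h1 : ∃ n ∈ om, h = ky 9 n
  · rw [sel_pos h1]
    obtain ⟨n, hn, rfl⟩ := h1
    obtain ⟨i, rfl⟩ := mem_om.1 hn
    exact ⟨i, snd_pair _ _⟩
  · rw [sel_neg h1]
    exact mem_om.1 (app_mem hj.1 hh)

theorem kq_val (hF : T_AF) (hG : T_AG) (hH : T_AH) {j x w v : V} (hj : Inj j) (hx : Rl x)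
    (hw : Rl w) (hv : Rl v) {h : V} (hh : h ∈ hf) {i m : ℕ} (hi : kq_n j h = nS i) (him : i < m) :
    cf j (kq_x (rs (prl (prl x w) v) (nS m))) (kq_w (rs (prl (prl x w) v) (nS m))) h =
      cf j x w h := by
  obtain ⟨-, -, h3, h4⟩ := kq_seq hF hG hH hx hw hv m
  unfold cf kq_n at *
  have e1 : app (kq_x (rs (prl (prl x w) v) (nS m))) (nS i) = app x (nS i) := by
    unfold kq_x
    rw [app_resS (by rw [h3]; exact nS_mem_nS.2 him), h4 i him, fst_pair, fst_pair]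
  have e2 : app (kq_w (rs (prl (prl x w) v) (nS m))) (nS i) = app w (nS i) := by
    unfold kq_w
    rw [app_resS (by rw [h3]; exact nS_mem_nS.2 him), h4 i him, fst_pair, snd_pair]
  by_cases h1 : ∃ n ∈ om, h = ky 9 n
  · rw [sel_pos h1] at hi
    rw [sel_pos h1, sel_pos h1, hi, e1]
  · rw [sel_neg h1] at hi
    rw [sel_neg h1, sel_neg h1, hi, e2]

theorem kq_conf (hA : T_AA) (hF : T_AF) (hG : T_AG) (hH : T_AH) {j x w : V} (hj : Inj j)
    (hx : Rl x) (hw : Rl w) {κ : V} (hκ : κ ∈ hf) (h : Prt κ (cf j x w)) :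
    ∃ m : ℕ, ∀ v, Rl v → kq_P j κ (rs (prl (prl x w) v) (nS m)) := by
  have fin : (κ : Set V).Finite := hA.2.2.2.2.2.1 κ hκ
  obtain ⟨m, hm⟩ := (fin.image fun z => nn (kq_n j (fst z))).bddAbove
  refine ⟨m + 1, fun v hv z hz => ?_⟩
  obtain ⟨h1, hh, rfl⟩ := h z hz
  obtain ⟨i, hi⟩ := kq_place j x w hj hh
  have him : i < m + 1 := by
    have h2 : nn (kq_n j (fst (ZFSet.pair h1 (cf j x w h1)))) ≤ m := hm ⟨_, hz, rfl⟩
    rw [fst_pair, hi, nn_nS] at h2
    omega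
  obtain ⟨-, -, h3, -⟩ := kq_seq hF hG hH hx hw hv (m + 1)
  refine ⟨h1, hh, ?_, ?_⟩
  · rw [h3, hi]
    exact nS_mem_nS.2 him
  · rw [kq_val hF hG hH hj hx hw hv hh hi him]

theorem kq_conf' (hF : T_AF) (hG : T_AG) (hH : T_AH) {j x w v : V} (hj : Inj j)
    (hx : Rl x) (hw : Rl w) (hv : Rl v) {κ : V} {m : ℕ}
    (h : kq_P j κ (rs (prl (prl x w) v) (nS m))) : Prt κ (cf j x w) := by
  intro z hz
  obtain ⟨h1, hh, h2, h3⟩ := h z hz
  obtain ⟨i, hi⟩ := kq_place j x w hj hh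
  obtain ⟨-, -, h4, -⟩ := kq_seq hF hG hH hx hw hv m
  rw [hi, h4] at h2
  rw [kq_val hF hG hH hj hx hw hv hh hi (nS_mem_nS.1 h2)] at h3
  exact ⟨h1, hh, h3⟩

theorem kq_em {F : V → V} {a b : V} : em F a b ↔ F (kq_k a b) = nS 1 := Iff.rfl

theorem kq_khf (hA : T_AA) {a b : V} (ha : a ∈ hf) (hb : b ∈ hf) : kq_k a b ∈ hf := by
  have hp := hA.2.2.2.1
  have hn := hA.2.1
  have h0 : (∅ : V) ∈ hf := by
    have := hn 0
    rwa [nS_zero] at this
  exact hp _ (hn 0) _ (hp _ (hp _ (hn 0) _ (hp _ (hn 0) _ (hn 1))) _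
    (hp _ h0 _ (hp _ ha _ (hp _ hb _ h0))))

theorem kq_sU (n : ℕ) : (⋃₀ (nS (n + 1)) : ZFSet) = nS n := by
  ext z
  rw [ZFSet.mem_sUnion]
  constructor
  · rintro ⟨y, hy, hz⟩
    rw [nS_succ, ZFSet.mem_insert_iff] at hy
    rcases hy with rfl | hy
    · exact hz
    · obtain ⟨k, rfl⟩ : ∃ k : ℕ, y = nS k := by
        have : y ∈ om := by
          have h1 : om.IsTransitive := by
            intro a ha b hb
            obtain ⟨l, rfl⟩ := mem_om.1 ha
            unfold nS at hb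
            rw [Ordinal.mem_toZFSet_iff] at hb
            obtain ⟨β, hβ, rfl⟩ := hb
            rw [Ordinal.mem_toZFSet_iff]
            exact ⟨β, hβ.trans (Ordinal.natCast_lt_omega0 l), rfl⟩
          exact h1 _ (nS_mem_om n) hy
        exact mem_om.1 this
      have hk := nS_mem_nS.1 hy
      unfold nS at hz ⊢
      rw [Ordinal.mem_toZFSet_iff] at hz ⊢
      obtain ⟨β, hβ, rfl⟩ := hz
      exact ⟨β, hβ.trans (by exact_mod_cast hk), rfl⟩
  · intro hz
    exact ⟨nS n, by rw [nS_succ]; exact ZFSet.mem_insert _ _, hz⟩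

theorem t_kq (hA : T_AA) (hF : T_AF) (hG : T_AG) (hH : T_AH) (hAI : T_AI) (hB : T_KB)
    (hKG : T_KG) : T_KQ := by
  intro P hP W kz j hj ij
  obtain ⟨K, tK, hK⟩ := hP
  have in0 : In (· ∈ hf) (fun _ => (∅ : V)) := fun _ => by
    have := hA.2.1 0
    rwa [nS_zero] at this
  have inW : In W (fun _ => (∅ : V)) := fun _ => kz.mempty
  obtain ⟨sK, cK⟩ := hK (fun _ => ∅) in0
  have wK : W (K fun _ => ∅) := tK.1 W kz _ inW
  set K0 : V := K fun _ => ∅ with hK0
  have tsq : Tm ZFm (fun _ _ => sq) := hF.2.2.1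
  have wU : W (sq.sep fun s => kq_U j K0 s) := by
    have t1 : Tm ZFm (fun _ v => sq.sep fun s => kq_U (v 0) (v 1) s) :=
      Tm.sep (R := fun _ v => kq_U (v 1) (v 2) (v 0))
        (Dfb.at3 (P := fun _ x y z => kq_U x y z) (kq_dfbU hA hAI hKG) (Tm.var 1) (Tm.var 2)
          (Tm.var 0)) tsq
    exact t1.1 W kz (cons j (cons K0 fun _ => ∅)) (In.cons (In.cons inW wK) hj)
  obtain ⟨a, ha, ra, hab⟩ := hB.2 W kz _ wU fun s hs => (ZFSet.mem_sep.1 hs).1
  refine ⟨a, ha, ra, fun x w hx rx hw rw' => ?_⟩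
  obtain ⟨tot, -⟩ := hKG.2.2.1 j x w ij rx rw'
  have opn : ∀ v, Rl v → (Opn a (prl (prl x w) v) ↔
      ∃ m : ℕ, kq_U j K0 (rs (prl (prl x w) v) (nS m))) := by
    intro v rv
    obtain ⟨h1, -⟩ := kq_seq hF hG hH rx rw' rv 0
    rw [hab _ h1]
    refine exists_congr fun m => ?_
    rw [ZFSet.mem_sep, and_iff_right]
    exact (hF.1 _).2 ⟨m, (kq_seq hF hG hH rx rw' rv m).2.1⟩
  constructor
  · intro hv
    constructor
    · refine (cK _ tot).2 fun κ hκ hp => ?_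
      obtain ⟨m, hm⟩ := kq_conf hA hF hG hH ij rx rw' (sK hκ) hp
      have rv : Rl (resS om fun _ => nS m) :=
        (hG.2.2.2.2.2 (fun _ => nS m) fun _ => hA.2.1 m).1
      have wv : W (resS om fun _ => nS m) :=
        (Tm.resS (g := fun _ _ => nS m) Tm.om (Tm.nS m)).1 W kz _ inW
      obtain ⟨m', h1, h2⟩ := (opn _ rv).1 (hv _ wv rv)
      obtain ⟨-, -, h3, h4⟩ := kq_seq hF hG hH rx rw' rv m'
      rw [h3] at h1
      have h1' : 0 < m' := by
        rw [← nS_zero] at h1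
        exact nS_mem_nS.1 h1
      have h0 := h4 0 h1'
      rw [nS_zero] at h0
      have e0 : snd (app (rs (prl (prl x w) (resS om fun _ => nS m)) (nS m')) ∅) = nS m := by
        rw [h0, snd_pair, app_resS (by rw [← nS_zero]; exact nS_mem_om 0)]
      rw [e0] at h2
      rcases h2 with ⟨-, h5, h6⟩ | ⟨h5, -⟩
      · refine h6 κ hκ ?_
        rw [h3] at h5
        have hle : m ≤ m' := by
          by_contra hlt
          have : nS m' ∈ nS m' := h5 (nS_mem_nS.2 (by omega))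
          exact absurd (nS_mem_nS.1 this) (lt_irrefl _)
        rw [(hG.1 _ (kq_seq hF hG hH rx rw' rv 0).1).2.2.2 m m' hle]
        exact hm _ rv
      · exact h5 (nS_mem_om m)
    · rintro ⟨s, ws, fs, ds⟩
      have sh : ∀ n : ℕ, app s (nS n) ∈ hf := fun n => app_mem fs (nS_mem_om n)
      have h0 : (∅ : V) ∈ hf := in0 0
      have fv : ∀ n : ℕ, sel (nS n = ∅) (ZFSet.pair ∅ ∅) (app s (⋃₀ (nS n) : ZFSet)) ∈ hf := by
        intro n
        cases n with
        | zero =>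
          rw [sel_pos nS_zero]
          exact hA.2.2.2.1 _ h0 _ h0
        | succ n =>
          rw [sel_neg (nS_ne_empty n), kq_sU]
          exact sh n
      obtain ⟨rv, av⟩ := hG.2.2.2.2.2
        (fun n => sel (n = ∅) (ZFSet.pair ∅ ∅) (app s (⋃₀ n : ZFSet))) fv
      set v : V := resS om fun n => sel (n = ∅) (ZFSet.pair ∅ ∅) (app s (⋃₀ n : ZFSet)) with hvd
      have wv : W v := by
        have t1 : Tm ZFm (fun _ u => resS om fun n => sel (n = ∅) (ZFSet.pair ∅ ∅)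
            (app (u 0) (⋃₀ n : ZFSet))) :=
          Tm.resS (g := fun _ u => sel (u 0 = ∅) (ZFSet.pair ∅ ∅) (app (u 1) (⋃₀ (u 0) : ZFSet)))
            Tm.om (Tm.sel (Dfb.eq (Tm.var 0) Tm.empty) (Tm.pair Tm.empty Tm.empty)
              (Tm.app (Tm.var 1) (Tm.sUnion (Tm.var 0))))
        exact t1.1 W kz (cons s fun _ => ∅) (In.cons inW ws)
      have v0 : app v (nS 0) = ZFSet.pair ∅ ∅ := by
        rw [av 0, sel_pos nS_zero]
      have v1 : ∀ n : ℕ, app v (nS (n + 1)) = app s (nS n) := by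
        intro n
        rw [av (n + 1), sel_neg (nS_ne_empty n), kq_sU]
      obtain ⟨m, h1, h2⟩ := (opn v rv).1 (hv v wv rv)
      obtain ⟨-, -, h3, h4⟩ := kq_seq hF hG hH rx rw' rv m
      rw [h3] at h1
      have h1' : 0 < m := by
        rw [← nS_zero] at h1
        exact nS_mem_nS.1 h1
      have e0 := h4 0 h1'
      rw [nS_zero] at e0
      have e1 : snd (app (rs (prl (prl x w) v) (nS m)) ∅) = ZFSet.pair ∅ ∅ := by
        rw [e0, snd_pair, ← nS_zero, v0, nS_zero]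
      rw [e1] at h2
      rcases h2 with ⟨h5, -⟩ | ⟨-, n, hn, h5, h6, h7⟩
      · obtain ⟨k, hk⟩ := mem_om.1 h5
        cases k with
        | zero =>
          rw [nS_zero] at hk
          exact pair_ne_empty _ _ hk
        | succ k =>
          have : (∅ : V) ∈ ZFSet.pair ∅ ∅ := by
            rw [hk, ← nS_zero]
            exact nS_mem_nS.2 (by omega)
          unfold ZFSet.pair at this
          rw [ZFSet.mem_insert_iff, ZFSet.mem_singleton] at this
          rcases this with h | h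
          · have h9 : (∅ : V) ∈ ({∅} : V) := ZFSet.mem_singleton.2 rfl
            rw [← h] at h9
            exact ZFSet.notMem_empty _ h9
          · have h9 : (∅ : V) ∈ ({∅, ∅} : V) := ZFSet.mem_insert_iff.2 (Or.inl rfl)
            rw [← h] at h9
            exact ZFSet.notMem_empty _ h9
      · obtain ⟨n, rfl⟩ := mem_om.1 hn
        rw [← nS_succ, ← nS_succ] at h5 h6 h7
        rw [h3] at h5
        have hm2 : n + 1 + 1 < m := nS_mem_nS.1 h5
        rw [h4 _ hm2, h4 (n + 1) (by omega), snd_pair, snd_pair, v1, v1] at h6 h7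
        have hk := kq_khf hA (sh (n + 1)) (sh n)
        obtain ⟨i, hi⟩ := kq_place j x w ij hk
        rw [h3, hi] at h6
        rw [kq_val hF hG hH ij rx rw' rv hk hi (nS_mem_nS.1 h6)] at h7
        have d := ds n
        unfold Ef at d
        rw [ZFSet.mem_sep, fst_pair, snd_pair, kq_em] at d
        exact h7 d.2
  · rintro ⟨hPc, nd⟩ v wv rv
    rw [opn v rv]
    have rvn : ∀ n : ℕ, app v (nS n) ∈ hf := fun n => ((hG.1 v rv).2.2.1 n).1
    by_cases h0 : app v (nS 0) ∈ om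
    · obtain ⟨m, hm⟩ := mem_om.1 h0
      refine ⟨m + 1, ?_, ?_⟩
      · rw [(kq_seq hF hG hH rx rw' rv (m + 1)).2.2.1, ← nS_zero]
        exact nS_mem_nS.2 (by omega)
      · left
        obtain ⟨-, -, h3, h4⟩ := kq_seq hF hG hH rx rw' rv (m + 1)
        have e0 := h4 0 (by omega)
        rw [nS_zero] at e0
        rw [e0, snd_pair, ← nS_zero, hm]
        refine ⟨nS_mem_om m, ?_, ?_⟩
        · rw [h3, nS_succ]
          intro z hz
          exact ZFSet.mem_insert_iff.2 (Or.inr hz)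
        · intro κ hκ hp
          rw [(hG.1 _ (kq_seq hF hG hH rx rw' rv 0).1).2.2.2 m (m + 1) (by omega)] at hp
          exact (cK _ tot).1 hPc κ hκ (kq_conf' hF hG hH ij rx rw' rv hp)
    · have fs : ∀ n : ℕ, app v (insert (nS n) (nS n)) ∈ hf := fun n => by
        rw [← nS_succ]
        exact rvn _
      obtain ⟨rs', as'⟩ := hG.2.2.2.2.2 (fun n => app v (insert n n)) fs
      have ws : W (resS om fun n => app v (insert n n)) := by
        have t1 : Tm ZFm (fun _ u => resS om fun n => app (u 0) (insert n n)) :=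
          Tm.resS (g := fun _ u => app (u 1) (insert (u 0) (u 0))) Tm.om
            (Tm.app (Tm.var 1) (Tm.ins (Tm.var 0) (Tm.var 0)))
        exact t1.1 W kz (cons v fun _ => ∅) (In.cons inW wv)
      have : ¬ ∀ n : ℕ, ZFSet.pair (app (resS om fun n => app v (insert n n)) (nS (n + 1)))
          (app (resS om fun n => app v (insert n n)) (nS n)) ∈ Ef (cf j x w) :=
        fun hd => nd ⟨_, ws, rs', hd⟩
      push Not at this
      obtain ⟨n, hn⟩ := this
      rw [as', as', ← nS_succ, ← nS_succ] at hn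
      have hne : ¬ em (cf j x w) (app v (nS (n + 1 + 1))) (app v (nS (n + 1))) := by
        intro he
        apply hn
        unfold Ef
        rw [ZFSet.mem_sep, fst_pair, snd_pair, ZFSet.mem_prod]
        exact ⟨⟨_, rvn _, _, rvn _, rfl⟩, he⟩
      have hk := kq_khf hA (rvn (n + 1 + 1)) (rvn (n + 1))
      obtain ⟨i, hi⟩ := kq_place j x w ij hk
      have b1 : n + 1 + 1 < max (n + 3) (i + 1) := by
        have := le_max_left (n + 3) (i + 1)
        omega
      have b2 : i < max (n + 3) (i + 1) := by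
        have := le_max_right (n + 3) (i + 1)
        omega
      obtain ⟨-, -, h3, h4⟩ := kq_seq hF hG hH rx rw' rv (max (n + 3) (i + 1))
      refine ⟨max (n + 3) (i + 1), ?_, Or.inr ⟨?_, nS n, nS_mem_om n, ?_, ?_, ?_⟩⟩
      · rw [h3, ← nS_zero]
        exact nS_mem_nS.2 (by omega)
      · have e0 := h4 0 (by omega)
        rw [nS_zero] at e0
        rw [e0, snd_pair, ← nS_zero]
        exact h0
      · rw [← nS_succ, ← nS_succ, h3]
        exact nS_mem_nS.2 b1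
      · rw [← nS_succ, ← nS_succ, h4 _ b1, h4 (n + 1) (by omega), snd_pair, snd_pair, h3, hi]
        exact nS_mem_nS.2 b2
      · rw [← nS_succ, ← nS_succ, h4 _ b1, h4 (n + 1) (by omega), snd_pair, snd_pair,
          kq_val hF hG hH ij rx rw' rv hk hi b2]
        exact fun h => hne (kq_em.2 h)

end SE
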