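import Pool.Agent.H9.SE.TarK

/-! KR: the existence of a countable model with a given property is `Σ¹₂`. -/

open Ordinal Order Set
open scoped ZFSet

namespace SE

open SF CAA

theorem kr_range {c : V} (hs : Svl c) : rg c = imS (dm c) fun m => app c m := by
  ext y
  rw [mem_rg, mem_imS]
  constructor
  · rintro ⟨x, hx⟩
    exact ⟨x, mem_dm.2 ⟨y, hx⟩, app_eq hs hx⟩
  · rintro ⟨x, hx, rfl⟩
    obtain ⟨y, hy⟩ := mem_dm.1 hx
    exact ⟨x, by rw [app_eq hs hy]; exact hy⟩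

theorem t_kr (hA : T_AA) (hAC : T_AC) (hKA : T_KA) (hG : T_KG) (hI : T_KI) (hK : T_KK) (hL : T_KL)
    (hM : T_KM) (hN : T_KN) (hO1 : T_KO1) (hO2 : T_KO2) (hP : T_KP) (hQ : T_KQ) : T_KR := by
  intro φ W k
  have kz : ZFm W := k.toZFm
  have hhf : W hf := hA.2.2.2.2.2.2.2.1.1 W kz (fun _ => ∅) fun _ => kz.mempty
  obtain ⟨j, hj, ij⟩ := hG.1 W kz
  obtain ⟨a, ha, ra, h⟩ := hQ (MC φ) (hP φ) W kz j hj ij
  refine ⟨a, ha, ra, fun x hx rx => ?_⟩
  constructor
  · rintro ⟨T, hT, cT, zT, xT, sT⟩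
    obtain ⟨g, hg, eg, g0⟩ := hL W kz T x hT cT zT xT rx
    obtain ⟨f, hf', ff, gf⟩ := hM.2 W k T g hT hg (hN T g eg)
    have x9 : ∀ n ∈ om, app f (ky 9 n) = app x n := by
      intro n hn
      have hk : ky 9 n ∈ hf := hA.2.2.2.1 _ (hA.2.1 9) _ (hA.2.2.1 hn)
      rw [(gf _ hk).x9 n hn rfl, g0]
    obtain ⟨w, hw, rw', cw⟩ := hG.2.2.2 W kz j x f hj ij rx hf' ff x9
    have tot : Tot (cf j x w) := (hG.2.2.1 j x w ij rx rw').1
    have gc : ∀ h ∈ hf, Gb T g h (cf j x w h) := fun h hh => by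
      rw [cw h hh]
      exact gf h hh
    obtain ⟨o1, o2, -, o4⟩ := hO1 T g _ eg tot gc
    obtain ⟨o5, o6⟩ := hO2 T g _ eg tot gc
    refine ⟨w, hw, rw', (h x w hx rx hw rw').2 ⟨⟨o4, o5, o6, ?_⟩, ?_⟩⟩
    · have e : (fun i => app g (vn i (pl ∅ []))) = fun _ => x := by
        funext i
        rw [vn_pl]
        simp [g0]
      refine (o1 φ (pl ∅ []) (mem_PL.2 ⟨∅, [], rfl, hA.2.1 0 |> fun h0 => ?_, by simp⟩)).2 ?_
      · rwa [nS_zero] at h0
      · rw [e]
        exact sT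
    · rintro ⟨s, hs, fs, ds⟩
      have key : ∀ n : ℕ, app g (app s (nS (n + 1))) ∈ app g (app s (nS n)) := by
        intro n
        have h1 := ds n
        unfold Ef at h1
        rw [ZFSet.mem_sep] at h1
        have h2 := h1.2
        rw [fst_pair, snd_pair] at h2
        exact (o2 _ (app_mem fs (nS_mem_om _)) _ (app_mem fs (nS_mem_om _))).1 h2
      have wf : WellFounded fun x y : V => x ∈ y := ZFSet.mem_wf
      obtain ⟨_, ⟨n, rfl⟩, hm⟩ := wf.has_min (Set.range fun n : ℕ => app g (app s (nS n)))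
        ⟨_, ⟨0, rfl⟩⟩
      exact hm _ ⟨n + 1, rfl⟩ (key n)
  · rintro ⟨w, hw, rw', hv⟩
    obtain ⟨mc, nd⟩ := (h x w hx rx hw rw').1 hv
    obtain ⟨tot, c9⟩ := hG.2.2.1 j x w ij rx rw'
    have hE : W (Ef (cf j x w)) := by
      have t1 : Tm ZFm (fun _ v => cf (v 0) (v 1) (v 2) (v 3)) := hG.2.1
      have t2 : Tm ZFm (fun _ v => Ef (cf (v 0) (v 1) (v 2))) := by
        unfold Ef
        have thf : Tm ZFm (fun _ _ => hf) := hA.2.2.2.2.2.2.2.1
        refine Tm.sep (R := fun _ v => em (cf (v 1) (v 2) (v 3)) (fst (v 0)) (snd (v 0))) ?_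
          (Tm.prod thf thf)
        unfold em tv ky pl
        refine Dfb.eq ?_ (Tm.nS 1)
        have t3 : Tm ZFm (fun _ v => ZFSet.pair (nS 0) (ZFSet.pair (cd (.mem 0 1))
            (ZFSet.pair ∅ (lc [fst (v 0), snd (v 0)])))) := by
          refine Tm.pair (Tm.nS 0) (Tm.pair ?_ (Tm.pair Tm.empty ?_))
          · show Tm ZFm (fun _ _ => ZFSet.pair (nS 0) (ZFSet.pair (nS 0) (nS 1)))
            exact Tm.pair (Tm.nS 0) (Tm.pair (Tm.nS 0) (Tm.nS 1))
          · show Tm ZFm (fun _ v => ZFSet.pair (fst (v 0)) (ZFSet.pair (snd (v 0)) ∅))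
            exact Tm.pair (Tm.fst (Tm.var 0)) (Tm.pair (Tm.snd (Tm.var 0)) Tm.empty)
        exact (t1.comp (fun i => if i = 0 then fun _ v => v 1 else if i = 1 then fun _ v => v 2
          else if i = 2 then fun _ v => v 3 else fun _ v => ZFSet.pair (nS 0)
            (ZFSet.pair (cd (.mem 0 1)) (ZFSet.pair ∅ (lc [fst (v 0), snd (v 0)])))) (by
            intro i
            by_cases h0 : i = 0
            · simp only [h0, if_true]
              exact Tm.var 1
            by_cases h1 : i = 1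
            · simp only [h1, if_true]
              exact Tm.var 2
            by_cases h2 : i = 2
            · simp only [h2]
              exact Tm.var 3
            simp only [h0, h1, h2, if_false]
            exact t3)).congr fun M k v hv => by simp
      exact t2.1 W kz (cons j (cons x (cons w fun _ => ∅)))
        (In.cons (In.cons (In.cons (fun _ => kz.mempty) hw) hx) hj)
    obtain ⟨r, hr, rr⟩ := (hKA W k hf _ hhf hE).1 nd
    obtain ⟨c, hc, cc⟩ := hI W kz hf _ r hhf hE hr rr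
    obtain ⟨zT, xT, sT⟩ := hK φ _ c x tot mc cc rx c9
    have hrg : W (rg c) := (Tm.rg (Tm.var 0)).1 W kz (cons c fun _ => ∅)
      (In.cons (fun _ => kz.mempty) hc)
    refine ⟨rg c, hrg, ?_, zT, xT, sT⟩
    have ch : Ctbl W hf := hA.2.2.2.2.2.2.2.2 W kz
    exact (hAC W kz).2.2.2.2.2 hf c hc cc.svl ch (by rw [cc.dm])

end SE
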