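import Pool.Agent.H9.SE.TarK
import Pool.Agent.H47.CA.UK

/-! KX: large models `L_κ[x]`. -/

set_option linter.unusedVariables false

open Ordinal Order Set
open scoped ZFSet

namespace SE

open SF CAA CAU.UK47

/-- formulas without the predicate -/
theorem kx_np (x A : V) (φ : Fml) : ∃ ψ : Fml, ∀ v : ℕ → V,
    (SatP (· ∈ x) (· ∈ A) ψ v ↔ SatP (· ∈ x) (· ∈ (∅ : V)) φ v) := by
  induction φ with
  | mem i j => exact ⟨.mem i j, fun v => Iff.rfl⟩
  | eq i j => exact ⟨.eq i j, fun v => Iff.rfl⟩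
  | prd i =>
    refine ⟨.neg (.eq i i), fun v => ?_⟩
    show ¬ (v i = v i) ↔ v i ∈ (∅ : V)
    constructor
    · exact fun h => absurd rfl h
    · exact fun h => absurd h (ZFSet.notMem_empty _)
  | neg φ ih =>
    obtain ⟨ψ, h⟩ := ih
    exact ⟨.neg ψ, fun v => not_congr (h v)⟩
  | and φ ψ ih1 ih2 =>
    obtain ⟨φ', h1⟩ := ih1
    obtain ⟨ψ', h2⟩ := ih2
    exact ⟨.and φ' ψ', fun v => and_congr (h1 v) (h2 v)⟩
  | ex φ ih =>
    obtain ⟨ψ, h⟩ := ih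
    exact ⟨.ex ψ, fun v => exists_congr fun y => and_congr_right fun _ => h _⟩

theorem kx_def (x A : V) : Def x ∅ ⊆ Def x A := by
  intro y hy
  obtain ⟨φ, l, hl, rfl⟩ := mem_Def.1 hy
  obtain ⟨ψ, h⟩ := kx_np x A φ
  refine mem_Def.2 ⟨ψ, l, hl, ?_⟩
  ext z
  rw [ZFSet.mem_sep, ZFSet.mem_sep]
  exact and_congr_right fun _ => (h _).symm

theorem kx_LA {M : V → Prop} (k : ZFm M) {A : V} (hA : M A) {α : Ordinal.{0}} (h : M α.toZFSet) :
    M (LA A α) := by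
  have := (Tm.LAS (Tm.var 1) (Tm.var 0)).1 M k _ (in2 k h hA)
  rw [← LAS_ord]
  exact this

theorem kx_H {M : V → Prop} (k : ZFm M) {A m : V} (hA : M A) (hm : M m) :
    M (resS m fun x => LAS A x) := by
  have := (Tm.resS (f := fun _ v => v 0) (g := fun _ v => LAS (v 2) (v 0)) (Tm.var 0)
    (Tm.LAS (Tm.var 2) (Tm.var 0))).1 M k _ (in2 k hm hA)
  exact this

theorem kx_om {M : V → Prop} (k : ZFm M) {ρ : Ordinal.{0}} (hρ : M ρ.toZFSet) :
    ∃ γ : Ordinal.{0}, M γ.toZFSet ∧ IsSuccLimit γ ∧ ω < γ ∧ ρ < γ := by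
  have hωM : M (ω : Ordinal.{0}).toZFSet := k.inf
  have hm : M (max ρ ω).toZFSet := by
    rcases le_total ρ ω with h | h
    · rwa [max_eq_right h]
    · rwa [max_eq_left h]
  have h1 : M (max ρ ω + ω).toZFSet := by
    have h1 := SF.H68.aLAR.1.1 M k (cons (max ρ ω).toZFSet fun _ => om) (by
      intro i
      cases i with
      | zero => exact hm
      | succ i => exact hωM)
    have h2 : (((cons (max ρ ω).toZFSet fun _ => om) 0).rank +
        ((cons (max ρ ω).toZFSet fun _ => om) 1).rank : Ordinal.{0}) = max ρ ω + ω := by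
      rw [cons_zero]
      show (max ρ ω).toZFSet.rank + (ω : Ordinal.{0}).toZFSet.rank = _
      rw [rank_toZFSet, rank_toZFSet]
    simp only [h2] at h1
    exact h1
  have hlim : IsSuccLimit (max ρ ω + ω) := Ordinal.isSuccLimit_add _ isSuccLimit_omega0
  have hmγ : max ρ ω < max ρ ω + ω := lt_add_of_pos_right _ omega0_pos
  exact ⟨_, h1, hlim, (le_max_right _ _).trans_lt hmγ, (le_max_left _ _).trans_lt hmγ⟩

/-- levels which are models -/
theorem kx_level (hDM : T_DM) (hDH : T_DH) (hDF : T_DF) (h1 : T_KX1) (h2 : T_KX2) {M : V → Prop}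
    (hZ : ZFC M) {A : V} (hA : M A) {ρ : Ordinal.{0}} (hρ : M ρ.toZFSet) :
    ∃ μ : Ordinal.{0}, ρ < μ ∧ ω < μ ∧ IsSuccLimit μ ∧ M μ.toZFSet ∧ ZFm (· ∈ LA A μ) ∧
      ∀ α : Ordinal.{0}, α.toZFSet ∈ LA A μ ↔ α < μ := by
  have k : ZFm M := hZ.toZFCm.toZFm
  obtain ⟨γ, hγ, hlim, hωγ, hργ⟩ := kx_om k hρ
  have hG : Gd (LA A γ) := h2 A γ hlim hωγ
  have hCM : M (LA A γ) := kx_LA k hA hγ
  obtain ⟨μ, hμM, hμ1, hμ2⟩ := least hZ hCM
  obtain ⟨d1, d2, d3⟩ := hDH M hZ.toZFCm (LA A γ) hCM hG μ hμM hμ2 hμ1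
  have hρμ : ρ < μ := d1 ρ ((ord_sub_Lh dn_empty_tr ρ).2 γ hργ)
  have hωμ : ω < μ := d1 ω ((ord_sub_Lh dn_empty_tr ω).2 γ hωγ)
  obtain ⟨f1, f2, f3, f4, f5, f6, f7, -⟩ := hDF M k (LA A γ) hCM hG
  have happ : ∀ α < μ, app (resS μ.toZFSet fun x => LAS A x) α.toZFSet = LA A α := by
    intro α hα
    rw [app_resS (toZFSet_mem_toZFSet_iff.2 hα), LAS_ord]
  obtain ⟨-, -, hz, hord⟩ := hDM M hZ.toZFCm μ (resS μ.toZFSet fun x => LAS A x) (LA A μ)
    (kx_H k hA hμM) hμM hωμ d3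
    (fun α hα => by rw [happ α hα]; exact Lh_isTransitive dn_empty_tr α)
    (fun α hα => by
      rw [happ α hα, happ _ (d3.succ_lt hα)]
      exact fun y hy => Def_Lh_sub (lt_succ α) (kx_def _ _ hy))
    (fun α β hαβ hβ => by
      rw [happ β hβ, happ α (hαβ.trans_lt hβ)]
      exact Lh_mono hαβ)
    (fun g hg hl x hx => by
      rw [happ g hg] at hx
      obtain ⟨β, hβ, hx'⟩ := (mem_Lh_limit hl).1 hx
      refine ⟨β, hβ, ?_⟩
      rw [happ β (hβ.trans hg)]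
      exact hx')
    (fun α hα f hf hfun => by
      rw [happ α hα] at hfun ⊢
      have hs : Sm M (LA A γ) (LA A α) :=
        h1 M hZ.toZFCm (LA A γ) hCM hG A hA α (k.mle hμM hα.le) (hμ2 α hα)
      have hs2 : Sm M (LA A γ) (rg f) := f7 _ f hs hf (svl_of_isFunc hfun) (dm_eq hfun)
      have hsub : rg f ⊆ μ.toZFSet := by
        intro y hy
        obtain ⟨x, hx⟩ := mem_rg.1 hy
        exact (ZFSet.pair_mem_prod.1 (hfun.1 hx)).2
      obtain ⟨g, hg, hg2⟩ := d2 (rg f) (M_rg k hf) hs2 hsub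
      exact ⟨g, hg, fun x hx => hg2 (mem_rg.2 ⟨x, pair_app_mem hfun hx⟩)⟩)
    (fun x => by
      rw [show LA A μ = Lh ∅ A μ from rfl, mem_Lh_limit d3]
      refine exists_congr fun β => and_congr_right fun hβ => ?_
      rw [happ β hβ]
      exact Iff.rfl)
  exact ⟨μ, hρμ, hωμ, d3, hμM, hz, hord⟩

/-- KX -/
theorem t_kx (hA : T_AA) (hDM : T_DM) (hDH : T_DH) (hDF : T_DF) (h1 : T_KX1) (h2 : T_KX2) :
    T_KX := by
  intro W hZ x hx rx ρ hρ
  have k : ZFm W := hZ.toZFCm.toZFm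
  obtain ⟨μ, hρμ, hωμ, hl, hμ, zf, ord⟩ := kx_level hDM hDH hDF h1 h2 hZ hx hρ
  refine ⟨μ, kx_LA k hx hμ, zf, ?_, (ord ρ).2 hρμ⟩
  -- `x` is a subset of `hf`, `hf` is an element of the level
  have hh : hf ∈ LA x μ := hA.2.2.2.2.2.2.2.1.1 _ zf (fun _ => ∅) fun _ => zf.mempty
  have sx : x ⊆ hf := by
    intro z hz
    obtain ⟨p, hp, q, hq, rfl⟩ := ZFSet.mem_prod.1 (rx.1 hz)
    exact hA.2.2.2.1 _ (hA.2.2.1 hp) _ hq
  obtain ⟨β, hβ, hh'⟩ := (mem_Lh_limit hl).1 (show hf ∈ Lh ∅ x μ from hh)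
  have tr : (Lh ∅ x β).IsTransitive := Lh_isTransitive dn_empty_tr β
  have hin : x ∈ Def (Lh ∅ x β) x := by
    refine mem_Def.2 ⟨.and (.mem 0 1) (.prd 0), [hf], ?_, ?_⟩
    · intro p hp
      rw [List.mem_singleton] at hp
      rw [hp]
      exact hh'
    · ext z
      rw [ZFSet.mem_sep]
      constructor
      · intro hz
        exact ⟨tr _ hh' (sx hz), sx hz, hz⟩
      · rintro ⟨-, -, h⟩
        exact h
  exact mem_Lh.2 (Or.inr ⟨β, hβ, hin⟩)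

end SE
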