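import Pool.Agent.H9.SE.TarK

/-! SUB: substitutions in `Σ¹₄` sets. -/

open Ordinal Order Set
open scoped ZFSet

namespace SE

open SF CAA

theorem sub_fst (hA : T_AA) {q : V} (hq : q ∈ hf) : fst q ∈ hf ∧ snd q ∈ hf := by
  have h0 : (∅ : V) ∈ hf := by
    have := hA.2.1 0
    rwa [nS_zero] at this
  by_cases h : ∃ x y, q = ZFSet.pair x y
  · obtain ⟨x, y, rfl⟩ := h
    rw [fst_pair, snd_pair]
    have h1 : ({x, y} : V) ∈ ZFSet.pair x y := by
      unfold ZFSet.pair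
      rw [ZFSet.mem_insert_iff, ZFSet.mem_singleton]
      exact Or.inr rfl
    have h2 : ({x, y} : V) ∈ hf := hA.1 _ hq h1
    exact ⟨hA.1 _ h2 (ZFSet.mem_insert_iff.2 (Or.inl rfl)),
      hA.1 _ h2 (ZFSet.mem_insert_iff.2 (Or.inr (ZFSet.mem_singleton.2 rfl)))⟩
  · rw [fst_eq_of_not h, snd_eq_of_not h]
    exact ⟨h0, h0⟩

/-- the five components of a real -/
noncomputable def sub_m (F : V → V → V) (n h : V) : V :=
  ZFSet.pair (ZFSet.pair (ZFSet.pair (ZFSet.pair (F n (fst (fst (fst (fst h)))))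
    (snd (fst (fst (fst h))))) (snd (fst (fst h)))) (snd (fst h))) (snd h)

/-- the general form -/
theorem sub_gen (hA : T_AA) (hG : T_AG) (hH : T_AH) (hS : T_KS) {W : V → Prop} (k : ZFm W)
    {a : V} (wa : W a) (ra : Rl a) (F : V → V → V) (hF : ∀ n ∈ om, ∀ h ∈ hf, F n h ∈ hf)
    (hψ : W (resS (ZFSet.prod om hf) fun z => sub_m F (fst z) (snd z))) :
    ∃ c, W c ∧ Rl c ∧ ∀ y y', Rl y → Rl y' → (∀ n : ℕ, app y' (nS n) = F (nS n) (app y (nS n))) →
      (S4 W c y ↔ S4 W a y') := by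
  have hp := hA.2.2.2.1
  have m1 : ∀ n ∈ om, ∀ h ∈ hf, sub_m F n h ∈ hf := by
    intro n hn h hh
    have f1 := sub_fst hA hh
    have f2 := sub_fst hA f1.1
    have f3 := sub_fst hA f2.1
    have f4 := sub_fst hA f3.1
    exact hp _ (hp _ (hp _ (hp _ (hF n hn _ f4.1) _ f4.2) _ f3.2) _ f2.2) _ f1.2
  have fψ : ZFSet.IsFunc (ZFSet.prod om hf) hf
      (resS (ZFSet.prod om hf) fun z => sub_m F (fst z) (snd z)) := by
    refine isFunc_resS _ _ _ fun z hz => ?_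
    obtain ⟨n, hn, h, hh, rfl⟩ := ZFSet.mem_prod.1 hz
    rw [fst_pair, snd_pair]
    exact m1 n hn h hh
  obtain ⟨c, wc, rc, hc⟩ := hS W k _ hψ fψ a wa ra
  refine ⟨c, wc, rc, fun y y' ry ry' e => ?_⟩
  have key : ∀ v y1 y2 y3, Rl v → Rl y1 → Rl y2 → Rl y3 →
      (Opn c (prl (prl (prl (prl y v) y1) y2) y3) ↔
        Opn a (prl (prl (prl (prl y' v) y1) y2) y3)) := by
    intro v y1 y2 y3 rv r1 r2 r3
    obtain ⟨p1, q1⟩ := hH.1 y v ry rv
    obtain ⟨p2, q2⟩ := hH.1 _ y1 p1 r1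
    obtain ⟨p3, q3⟩ := hH.1 _ y2 p2 r2
    obtain ⟨p4, q4⟩ := hH.1 _ y3 p3 r3
    obtain ⟨p1', q1'⟩ := hH.1 y' v ry' rv
    obtain ⟨p2', q2'⟩ := hH.1 _ y1 p1' r1
    obtain ⟨p3', q3'⟩ := hH.1 _ y2 p2' r2
    obtain ⟨p4', q4'⟩ := hH.1 _ y3 p3' r3
    rw [hc _ p4]
    have hin : ∀ n : ℕ, ZFSet.pair (nS n) (app (prl (prl (prl (prl y v) y1) y2) y3) (nS n)) ∈
        ZFSet.prod om hf := fun n =>
      ZFSet.mem_prod.2 ⟨_, nS_mem_om n, _, app_mem p4 (nS_mem_om n), rfl⟩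
    have val : ∀ n : ℕ, app (resS (ZFSet.prod om hf) fun z => sub_m F (fst z) (snd z))
        (ZFSet.pair (nS n) (app (prl (prl (prl (prl y v) y1) y2) y3) (nS n))) =
        app (prl (prl (prl (prl y' v) y1) y2) y3) (nS n) := by
      intro n
      rw [app_resS (hin n), fst_pair, snd_pair, q4, q3, q2, q1, q4', q3', q2', q1', e n]
      unfold sub_m
      simp only [fst_pair, snd_pair]
    obtain ⟨r5, v5⟩ := hG.2.2.2.2.2 (fun n => app (resS (ZFSet.prod om hf)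
      fun z => sub_m F (fst z) (snd z)) (ZFSet.pair n
        (app (prl (prl (prl (prl y v) y1) y2) y3) n))) (fun n => by
          show app (resS (ZFSet.prod om hf) fun z => sub_m F (fst z) (snd z))
            (ZFSet.pair (nS n) (app (prl (prl (prl (prl y v) y1) y2) y3) (nS n))) ∈ hf
          rw [val n]
          exact app_mem p4' (nS_mem_om n))
    have eq : (resS om fun n => app (resS (ZFSet.prod om hf) fun z => sub_m F (fst z) (snd z))
        (ZFSet.pair n (app (prl (prl (prl (prl y v) y1) y2) y3) n))) =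
        prl (prl (prl (prl y' v) y1) y2) y3 :=
      hG.2.2.1 _ _ r5 p4' fun n => (v5 n).trans (val n)
    rw [eq]
  unfold S4 P3
  constructor
  · rintro ⟨v, wv, rv, h⟩
    refine ⟨v, wv, rv, fun y1 w1 r1 => ?_⟩
    obtain ⟨y2, w2, r2, h2⟩ := h y1 w1 r1
    exact ⟨y2, w2, r2, fun y3 w3 r3 => (key v y1 y2 y3 rv r1 r2 r3).1 (h2 y3 w3 r3)⟩
  · rintro ⟨v, wv, rv, h⟩
    refine ⟨v, wv, rv, fun y1 w1 r1 => ?_⟩
    obtain ⟨y2, w2, r2, h2⟩ := h y1 w1 r1
    exact ⟨y2, w2, r2, fun y3 w3 r3 => (key v y1 y2 y3 rv r1 r2 r3).2 (h2 y3 w3 r3)⟩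

/-- SUB -/
theorem t_sub (hA : T_AA) (hG : T_AG) (hH : T_AH) (hS : T_KS) : T_SUB := by
  intro W k a r wa ra wr rr e
  have thf : Tm ZFm (fun _ _ => hf) := hA.2.2.2.2.2.2.2.1
  have hp := hA.2.2.2.1
  obtain ⟨rk, vk⟩ := hH.2.2.2.1 e
  constructor
  · have hψ : W (resS (ZFSet.prod om hf) fun z => sub_m (fun n h => ZFSet.pair (nS e)
        (ZFSet.pair (app r n) h)) (fst z) (snd z)) := by
      have t1 : Tm ZFm (fun _ u => resS (ZFSet.prod om hf) fun z =>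
          sub_m (fun n h => ZFSet.pair (nS e) (ZFSet.pair (app (u 0) n) h)) (fst z) (snd z)) := by
        unfold sub_m
        refine Tm.resS (g := fun _ u => ZFSet.pair (ZFSet.pair (ZFSet.pair (ZFSet.pair
          (ZFSet.pair (nS e) (ZFSet.pair (app (u 1) (fst (u 0))) (fst (fst (fst (fst (snd (u 0))))))))
          (snd (fst (fst (fst (snd (u 0))))))) (snd (fst (fst (snd (u 0)))))) (snd (fst (snd (u 0)))))
          (snd (snd (u 0)))) (Tm.prod Tm.om thf) ?_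
        have t0 : Tm ZFm (fun _ u => snd (u 0)) := Tm.snd (Tm.var 0)
        have t2 := Tm.fst t0
        have t3 := Tm.fst t2
        have t4 := Tm.fst t3
        have t5 := Tm.fst t4
        exact Tm.pair (Tm.pair (Tm.pair (Tm.pair (Tm.pair (Tm.nS e) (Tm.pair (Tm.app (Tm.var 1)
          (Tm.fst (Tm.var 0))) t5)) (Tm.snd t4)) (Tm.snd t3)) (Tm.snd t2)) (Tm.snd t0)
      exact t1.1 W k (cons r fun _ => ∅) (In.cons (fun _ => k.mempty) wr)
    obtain ⟨c, wc, rc, hc⟩ := sub_gen hA hG hH hS k wa ra (fun n h => ZFSet.pair (nS e)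
      (ZFSet.pair (app r n) h)) (fun n hn h hh => hp _ (hA.2.1 e) _ (hp _ (app_mem rr hn) _ hh)) hψ
    refine ⟨c, wc, rc, fun y wy ry => hc y _ ry ?_ fun n => ?_⟩
    · exact (hH.1 _ _ rk (hH.1 r y rr ry).1).1
    · rw [(hH.1 _ _ rk (hH.1 r y rr ry).1).2 n, vk n, (hH.1 r y rr ry).2 n]
  · have hψ : W (resS (ZFSet.prod om hf) fun z => sub_m (fun n h => ZFSet.pair (nS e) h)
        (fst z) (snd z)) := by
      have t1 : Tm ZFm (fun _ u => resS (ZFSet.prod om hf) fun z =>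
          sub_m (fun n h => ZFSet.pair (nS e) h) (fst z) (snd z)) := by
        unfold sub_m
        refine Tm.resS (g := fun _ u => ZFSet.pair (ZFSet.pair (ZFSet.pair (ZFSet.pair
          (ZFSet.pair (nS e) (fst (fst (fst (fst (snd (u 0)))))))
          (snd (fst (fst (fst (snd (u 0))))))) (snd (fst (fst (snd (u 0)))))) (snd (fst (snd (u 0)))))
          (snd (snd (u 0)))) (Tm.prod Tm.om thf) ?_
        have t0 : Tm ZFm (fun _ u => snd (u 0)) := Tm.snd (Tm.var 0)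
        have t2 := Tm.fst t0
        have t3 := Tm.fst t2
        have t4 := Tm.fst t3
        have t5 := Tm.fst t4
        exact Tm.pair (Tm.pair (Tm.pair (Tm.pair (Tm.pair (Tm.nS e) t5) (Tm.snd t4)) (Tm.snd t3))
          (Tm.snd t2)) (Tm.snd t0)
      exact t1.1 W k (fun _ => ∅) (fun _ => k.mempty)
    obtain ⟨c, wc, rc, hc⟩ := sub_gen hA hG hH hS k wa ra (fun n h => ZFSet.pair (nS e) h)
      (fun n hn h hh => hp _ (hA.2.1 e) _ hh) hψ
    refine ⟨c, wc, rc, fun y wy ry => hc y _ ry ?_ fun n => ?_⟩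
    · exact (hH.1 _ _ rk ry).1
    · rw [(hH.1 _ _ rk ry).2 n, vk n]

end SE
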