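import Pool.Agent.H9.CA.All
import Pool.Agent.H58.SE.AA
import Pool.Agent.H58.SE.AB
import Pool.Agent.H59.SE.AC
import Pool.Agent.H58.SE.AD
import Pool.Agent.H33.SE.AE
import Pool.Agent.H42.SE.AF
import Pool.Agent.H35.SE.AG
import Pool.Agent.H50.SE.AH
import Pool.Agent.H59.SE.AI
import Pool.Agent.H9.SE.COD
import Pool.Agent.H29.SE.HTG
import Pool.Agent.H94.SE.KA1
import Pool.Agent.H94.SE.KA2
import Pool.Agent.H9.SE.KB
import Pool.Agent.H60.SE.KC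
import Pool.Agent.H84.SE.KE0
import Pool.Agent.H84.SE.KE1
import Pool.Agent.H84.SE.KE2
import Pool.Agent.H9.SE.KG
import Pool.Agent.H84.SE.KH1
import Pool.Agent.H12.SE.KH2
import Pool.Agent.H9.SE.KI
import Pool.Agent.H29.SE.KJ1
import Pool.Agent.H29.SE.KJ2
import Pool.Agent.H29.SE.KK
import Pool.Agent.H63.SE.KL
import Pool.Agent.H63.SE.KN
import Pool.Agent.H9.SE.KO
import Pool.Agent.H3.SE.KP
import Pool.Agent.H12.SE.KP1
import Pool.Agent.H66.SE.KP2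
import Pool.Agent.H66.SE.KP3
import Pool.Agent.H9.SE.KQ
import Pool.Agent.H9.SE.KR
import Pool.Agent.H86.SE.KS
import Pool.Agent.H9.SE.KX
import Pool.Agent.H86.SE.KX1
import Pool.Agent.H75.SE.KX2
import Pool.Agent.H81.SE.KY
import Pool.Agent.H86.SE.SHO
import Pool.Agent.H9.SE.SUB

/-! Parts A and K without hypotheses. -/

namespace SE

namespace All

theorem aAA : T_AA := pf_AA
theorem aAB : T_AB := pf_AB
theorem aAC : T_AC := pf_AC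
theorem aAD : T_AD := pf_AD
theorem aAE : T_AE := pf_AE aAB aAC aAD
theorem aAF : T_AF := pf_AF aAA aAC
theorem aAG : T_AG := pf_AG aAA aAF
theorem aAH : T_AH := pf_AH aAA aAG
theorem aAI : T_AI := pf_AI aAA
theorem aHTG : T_HTG := pf_HTG
theorem aKA1 : T_KA1 := t_ka1
theorem aKA2 : T_KA2 := t_ka2
theorem aKA : T_KA := t_ka aKA1 aKA2
theorem aKB : T_KB := t_kb aAA aAF aAG
theorem aKC : T_KC := t_kc aAF aAG aAH
theorem aKD : T_KD := t_kd aKA aKC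
theorem aKE0 : T_KE0 := t_ke0 aAB aAF aKC
theorem aKE1 : T_KE1 := t_ke1 aAB aAF aAG aKC
theorem aKE2 : T_KE2 := t_ke2 aAB aAF aAG aKC
theorem aKG : T_KG := t_kg aAA aAG
theorem aKH1 : T_KH1 := t_kh1 aAA
theorem aKH2 : T_KH2 := t_kh2 aAA
theorem aKI : T_KI := t_ki
theorem aKJ1 : T_KJ1 := pf_KJ1 aAA
theorem aKJ2 : T_KJ2 := pf_KJ2 aKJ1 aAA
theorem aKK : T_KK := pf_KK aKJ1 aKJ2 aAA
theorem aKL : T_KL := t_kl aAA
theorem aKM : T_KM := t_km aAA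
theorem aKN : T_KN := t_kn aAA
theorem aKO1 : T_KO1 := t_ko1 aAA
theorem aKO2 : T_KO2 := t_ko2 aAA
theorem aKP1 : T_KP1 := t_kp1 aAA aKH1 aKH2
theorem aKP2 : T_KP2 := pf_KP2 aKH1 aKH2 aAA
theorem aKP3 : T_KP3 := pf_KP3 aKH1 aKH2 aAA
theorem aKP : T_KP := t_kp aAA aKP1 aKP2 aKP3 aKH1 aKH2
theorem aKQ : T_KQ := t_kq aAA aAF aAG aAH aAI aKB aKG
theorem aKR : T_KR := t_kr aAA aAC aKA aKG aKI aKK aKL aKM aKN aKO1 aKO2 aKP aKQ
theorem aKS : T_KS := t_ks aAF aAG aKB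
theorem aKX1 : T_KX1 := t_kx1 CAA.All.aDF CAA.All.aDG
theorem aKX2 : T_KX2 := pf_KX2
theorem aKX : T_KX := t_kx aAA CAA.All.aDM CAA.All.aDH CAA.All.aDF aKX1 aKX2
theorem aKY : T_KY := t_ky CAA.All.aDB CAA.All.aDC CAA.All.aDJ CAA.All.aDK CAA.All.aDL aAA aAC
theorem aSHO : T_SHO := t_sho aAA aAH aAI aKA aKC aKD aKE0 aKE1 aKE2
theorem aP3U : T_P3U := t_p3u aAH aAI aSHO
theorem aSUB : T_SUB := t_sub aAA aAG aAH aKS
theorem aCOD : T_COD := t_cod aAA aAG aAH aAI aKR aKX aKY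

end All

end SE
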