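import Pool.Agent.H9.SE.Tar0
import Pool.Agent.H9.CA.All

/-! L0: there is a countable level which is a model of `ZFC`. -/

open Ordinal Order Set
open scoped ZFSet

namespace SE

open SF CAA

/-- L0 -/
theorem t_l0 : T_L0 := by
  obtain ⟨κ, χ, θ, h⟩ := CAA.All.aGA CAA.All.aU
  refine ⟨κ, ?_, (CAA.All.aDP (· ∈ LA ∅ θ) κ (LA ∅ κ) h.zfc h.inac h.vk).1⟩
  refine h.ctb.mono fun x hx => ?_
  exact ((h.vk x).1 hx).1

end SE
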