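import Pool.Agent.H9.SE.TarL

/-! LD: products of the chosen Cohen reals. -/

set_option linter.unusedVariables false

open Ordinal Order Set
open scoped ZFSet

namespace SE

open SF CAA

theorem ld_empty_tr : (∅ : V).IsTransitive := fun x hx => absurd hx (ZFSet.notMem_empty x)

theorem t_ld (h1 : T_LD1) (h2 : T_LD2) (h5 : T_LA5) : T_LD := by
  intro ix hix τ μ κ g k
  induction k with
  | zero =>
    intro ζ E η l zf hE hD _ _
    obtain ⟨t, ht, -⟩ := hD.d ∅ (by
      constructor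
      · exact ZFSet.empty_subset _
      · intro z hz
        rw [nS_zero] at hz
        exact absurd hz (ZFSet.notMem_empty z))
    exact ⟨t, ht, fun j hj => absurd hj (Nat.not_lt_zero j)⟩
  | succ k ih =>
    intro ζ E η l zf hE hD hη hlt
    obtain ⟨hζk, adk, lzk⟩ := hη k (Nat.lt_succ_self k)
    obtain ⟨-, h6, h7⟩ := h5 ix hix τ μ κ g
    have zk : ZFm (· ∈ LA ∅ (η k)) := adk.z
    have mono : LA ∅ ζ ⊆ LA ∅ (η k) := Lh_mono hζk
    have hl : ∀ j < k, l j ∈ LA ∅ (η k) := fun j hj =>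
      h7 (η j) (η k) (hη j (by omega)).2.1 adk (hlt j k hj (Nat.lt_succ_self k)) (l j)
        (hη j (by omega)).2.2
    have hDm := h2 _ zk k E l (mono hE) hl
    obtain ⟨-, -, l', lz', -, coh, -, uni⟩ := h6 (η k) adk
    have e : l k = l' := uni _ lzk
    rw [← e] at coh
    obtain ⟨u, hu, hul⟩ := coh.2 _ hDm (fun s hs => (ZFSet.mem_sep.1 hs).1) (by
      intro s hs
      obtain ⟨E', hE', hD', hp⟩ := h1 _ zf k E s hE hs hD
      obtain ⟨t', ht', h8⟩ := ih ζ E' η l zf hE' hD' (fun j hj => hη j (by omega))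
        fun i j hij hj => hlt i j hij (by omega)
      obtain ⟨t, ht, hst, h9⟩ := hp t' ht'
      refine ⟨app t (nS k), ZFSet.mem_sep.2 ⟨?_, t, ht, rfl, fun j hj => ?_⟩, hst⟩
      · exact app_mem (hD.f t ht) (nS_mem_nS.2 (Nat.lt_succ_self k))
      · rw [h9 j hj]
        exact h8 j hj)
    obtain ⟨-, t, ht, rfl, h10⟩ := ZFSet.mem_sep.1 hu
    refine ⟨t, ht, fun j hj => ?_⟩
    rcases Nat.lt_succ_iff_lt_or_eq.1 hj with h | rfl
    · exact h10 j h
    · exact hul

end SE
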