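import Pool.Agent.H9.SE.TarL

/-! # MP_eaeaf5_lc, LD3: permutations of dense sets of tuples -/

set_option autoImplicit false

open Ordinal Order Set
open scoped ZFSet

namespace SE

open SF CAA

theorem ld3_mem_nS {n : ℕ} {x : V} : x ∈ nS n ↔ ∃ j < n, x = nS j := by
  induction n with
  | zero =>
    constructor
    · intro h
      rw [nS_zero] at h
      exact absurd h (ZFSet.notMem_empty x)
    · rintro ⟨j, hj, -⟩
      exact absurd hj (Nat.not_lt_zero j)
  | succ n ih =>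
    rw [nS_succ, ZFSet.mem_insert_iff, ih]
    constructor
    · rintro (h | ⟨j, hj, h⟩)
      · exact ⟨n, Nat.lt_succ_self n, h⟩
      · exact ⟨j, Nat.lt_succ_of_lt hj, h⟩
    · rintro ⟨j, hj, h⟩
      rcases Nat.lt_succ_iff_lt_or_eq.1 hj with h1 | h1
      · exact Or.inr ⟨j, h1, h⟩
      · subst h1
        exact Or.inl h

/-- the finite function with the values `c` -/
noncomputable def ld3_g (c : ℕ → ℕ) : ℕ → V → V
  | 0, _ => ∅
  | i + 1, n => sel (n = nS i) (nS (c i)) (ld3_g c i n)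

theorem ld3_gv (c : ℕ → ℕ) : ∀ k j, j < k → ld3_g c k (nS j) = nS (c j) := by
  intro k
  induction k with
  | zero => exact fun j hj => absurd hj (Nat.not_lt_zero j)
  | succ k ih =>
    intro j hj
    show sel (nS j = nS k) (nS (c k)) (ld3_g c k (nS j)) = nS (c j)
    by_cases h : j = k
    · subst h
      exact sel_pos rfl
    · rw [sel_neg (fun e => h (nS_inj.1 e))]
      exact ih j (lt_of_le_of_ne (Nat.lt_succ_iff.1 hj) h)

theorem ld3_tm {K : (V → Prop) → Prop} (hK : K = ZFm) (c : ℕ → ℕ) (k : ℕ) :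
    Tm K (fun _ v => ld3_g c k (v 0)) := by
  subst hK
  induction k with
  | zero => exact Tm.empty
  | succ k ih => exact Tm.sel (Dfb.eq (Tm.var 0) (Tm.nS k)) (Tm.nS (c k)) ih

/-- the permuted set -/
noncomputable def ld3_E (c : ℕ → ℕ) (k : ℕ) (E : V) : V :=
  imS E fun t => resS (nS k) fun n => app t (ld3_g c k n)

theorem ld3_Etm (c : ℕ → ℕ) (k : ℕ) : Tm ZFm (fun _ v => ld3_E c k (v 0)) := by
  unfold ld3_E
  refine Tm.image (f := fun _ v => v 0)
    (g := fun _ u => resS (nS k) fun n => app (u 0) (ld3_g c k n)) (Tm.var 0) ?_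
  exact Tm.resS (f := fun _ _ => nS k) (g := fun _ u => app (u 1) (ld3_g c k (u 0))) (Tm.nS k)
      (Tm.app (Tm.var 1) (ld3_tm rfl c k))

theorem t_ld3 : T_LD3 := by
  intro M kM k E σ hME hE
  set c : ℕ → ℕ := fun i => if h : i < k then (σ ⟨i, h⟩ : ℕ) else 0 with hc
  have hc1 : ∀ j : Fin k, c j = σ j := by
    intro j
    simp only [hc]
    rw [dif_pos j.2]
  have hcl : ∀ j < k, c j < k := by
    intro j hj
    have := hc1 ⟨j, hj⟩
    simp only at this
    rw [this]
    exact (σ ⟨j, hj⟩).2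
  refine ⟨ld3_E c k E, (ld3_Etm c k).1 M kM (fun _ => E) (fun _ => hME), ⟨?_, ?_⟩, ?_⟩
  · intro t' ht'
    obtain ⟨t, ht, rfl⟩ := mem_imS.1 ht'
    refine isFunc_resS _ _ _ fun x hx => ?_
    obtain ⟨j, hj, rfl⟩ := ld3_mem_nS.1 hx
    rw [ld3_gv c k j hj]
    exact app_mem (hE.f t ht) (nS_mem_nS.2 (hcl j hj))
  · intro r hr
    -- the inverse permutation applied to `r`
    set d : ℕ → ℕ := fun i => if h : i < k then (σ.symm ⟨i, h⟩ : ℕ) else 0 with hd
    have hd1 : ∀ j : Fin k, d j = σ.symm j := by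
      intro j
      simp only [hd]
      rw [dif_pos j.2]
    have hdl : ∀ j < k, d j < k := by
      intro j hj
      have := hd1 ⟨j, hj⟩
      simp only at this
      rw [this]
      exact (σ.symm ⟨j, hj⟩).2
    have hr' : ZFSet.IsFunc (nS k) sq (resS (nS k) fun n => app r (ld3_g d k n)) := by
      refine isFunc_resS _ _ _ fun x hx => ?_
      obtain ⟨j, hj, rfl⟩ := ld3_mem_nS.1 hx
      rw [ld3_gv d k j hj]
      exact app_mem hr (nS_mem_nS.2 (hdl j hj))
    obtain ⟨t, ht, hle⟩ := hE.d _ hr'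
    refine ⟨_, mem_imS.2 ⟨t, ht, rfl⟩, fun j hj => ?_⟩
    have h1 := hle (c j) (hcl j hj)
    have h2 : d (c j) = j := by
      have e1 := hc1 ⟨j, hj⟩
      have e2 := hd1 (σ ⟨j, hj⟩)
      simp only at e1
      rw [e1, e2, Equiv.symm_apply_apply]
    rw [app_resS (nS_mem_nS.2 (hcl j hj)), ld3_gv d k _ (hcl j hj), h2] at h1
    rwa [app_resS (nS_mem_nS.2 hj), ld3_gv c k j hj]
  · intro t' ht'
    obtain ⟨t, ht, rfl⟩ := mem_imS.1 ht'
    refine ⟨t, ht, fun j => ?_⟩
    rw [app_resS (nS_mem_nS.2 j.2), ld3_gv c k j j.2, hc1 j]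

end SE
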