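import Pool.Agent.H9.SE.TarL

/-! LUZ: the context. -/

set_option linter.unusedVariables false

open Ordinal Order Set
open scoped ZFSet

namespace SE

open SF CAA

theorem t_luz (hDA : CAA.T_DA) (hG1 : T_LG1) (hG2 : T_LG2) (hA2 : T_LA2) (hB : T_LB)
    (hC2 : T_LC2) (hE : T_LE) : T_LUZ := by
  obtain ⟨ix, hix⟩ := hDA
  refine ⟨ILf ix, (hA2 ix hix).2.2, fun τ ctb zfc => ?_⟩
  obtain ⟨μ, κ, g⟩ := hG1 τ ctb zfc
  obtain ⟨reg, -, -⟩ := hG2 τ μ κ g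
  obtain ⟨lk, rl, nc, -⟩ := hC2 ix hix τ μ κ g
  refine ⟨LA ∅ κ, LL ix τ μ, fun T => ?_, hB ix hix τ μ κ g⟩
  constructor
  · exact zfc
  · exact ctb
  · exact Lh_mem g.κτ
  · exact g.zκ
  · exact reg
  · exact lk
  · exact rl
  · exact nc
  · intro k E hEN hf hd
    obtain ⟨Z, hZ, cZ, h⟩ := hE ix hix τ μ κ g k E hEN ⟨hf, hd⟩
    exact ⟨Z, hZ, cZ, h⟩

end SE
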