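import Pool.Agent.H9.SE.AllK
import Pool.Agent.H9.SE.L0
import Pool.Agent.H9.SE.LD
import Pool.Agent.H9.SE.LD3
import Pool.Agent.H9.SE.LUZ
import Pool.Agent.H31.SE.LA1
import Pool.Agent.H14.SE.LA2
import Pool.Agent.H59.SE.LA3
import Pool.Agent.H14.SE.LA4
import Pool.Agent.H21.SE.LA5
import Pool.Agent.H68.SE.LB
import Pool.Agent.H86.SE.LC1
import Pool.Agent.H1.SE.LC2
import Pool.Agent.H86.SE.LD1
import Pool.Agent.H59.SE.LD2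
import Pool.Agent.H1.SE.LE
import Pool.Agent.H21.SE.LG1
import Pool.Agent.H86.SE.LG2

/-! Part L without hypotheses. -/

namespace SE

namespace All

theorem aLA1 : T_LA1 := t_la1 aAA aAF aAG
theorem aLA2 : T_LA2 := t_la2 aAF aAI
theorem aLA3 : T_LA3 := pf_LA3
theorem aLA4 : T_LA4 := t_la4 aLA1 aLA3
theorem aLC1 : T_LC1 := t_lc1 aAA aAC aAD
theorem aLG2 : T_LG2 := t_lg2
theorem aLG1 : T_LG1 := pf_LG1 aLC1 CAA.All.aDN CAA.All.aDM CAA.All.aDH CAA.All.aDF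
  CAA.All.aGB CAA.All.aGC aAC
theorem aLA5 : T_LA5 := pf_LA5 aAA aAF aAC aLG2 aLA3 aLA4
theorem aLB : T_LB := t_lb aLA3 aLA4 aLA5
theorem aLC2 : T_LC2 := pf_LC2 aAC aLA2 aLA3 aLA4 aLA5 aLG2
theorem aLD1 : T_LD1 := t_ld1 aAF
theorem aLD2 : T_LD2 := pf_LD2 aAF
theorem aLD : T_LD := t_ld aLD1 aLD2 aLA5
theorem aLD3 : T_LD3 := t_ld3
theorem aLE : T_LE := pf_LE aAA aAF aLA5 aLC2 aLD aLD3
theorem aLUZ : T_LUZ := t_luz CAA.All.aDA aLG1 aLG2 aLA2 aLB aLC2 aLE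
theorem aL0 : T_L0 := t_l0

end All

end SE
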