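import Pool.Agent.H45.SF.Stmt

/-!
# MP_eaeaf5_lc: boldface `Σ¹₄` separation without `Π¹₄` reduction. Statement level definitions

`SF.V` is the type of all sets (`ZFSet.{0}`); a class of sets is a predicate `V → Prop`. The
definitions of `SF.ZFC`, `SF.LA` (the levels `L_α[A]`), `SF.IsPo`, `SF.Gen` and `SF.Ext` (generic
extensions) are in `Pool/Agent/H45/SF/Stmt.lean`. A real is a function from the natural numbers to
the natural numbers; it belongs to the class `W` if its graph is an element of `W`.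
-/

open Ordinal

namespace PSR

/-- the graph of a real, as a set (of ordered pairs of finite ordinals) -/
noncomputable def gr (x : ℕ → ℕ) : SF.V :=
  ZFSet.range fun n : ℕ => ZFSet.pair (n : Ordinal.{0}).toZFSet (x n : Ordinal.{0}).toZFSet

/-- the real which codes the pair of the reals `x`, `y` -/
def pr (x y : ℕ → ℕ) : ℕ → ℕ := fun n => Nat.pair (x n) (y n)

/-- `x` is an element of the open set with the code `a`: the union of the basic open sets given by
the finite sequences whose code has the value `0` under `a`. For real `a` these are all open sets,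
for computable `a` all effectively open sets. -/
def Op (a x : ℕ → ℕ) : Prop := ∃ n, a (Encodable.encode ((List.range n).map x)) = 0

variable (W : SF.V → Prop)

/-- In the model `W`, `x` is an element of the `Σ¹₄` set with the code `a`:
`∃ y₁ ∀ y₂ ∃ y₃ ∀ y₄` (all reals of `W`), the tuple belongs to the open set with the code `a`. The
boldface `Σ¹₄` sets of `W` are those with a code in `W`, the lightface ones are those with a
computable code. -/
def Sig4 (a x : ℕ → ℕ) : Prop :=
  ∃ y₁, W (gr y₁) ∧ ∀ y₂, W (gr y₂) → ∃ y₃, W (gr y₃) ∧ ∀ y₄, W (gr y₄) →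
    Op a (pr (pr (pr (pr x y₁) y₂) y₃) y₄)

/-- In the model `W`, `x` is an element of the `Π¹₄` set with the code `a`, the complement of the
`Σ¹₄` set with this code. -/
def Pi4 (a x : ℕ → ℕ) : Prop := ¬ Sig4 W a x

/-- In `W`, boldface `Σ¹₄` has the separation property: two disjoint `Σ¹₄` sets (codes `a`, `b`) are
separated by a set which is `Σ¹₄` (code `c`) and `Π¹₄` (code `d`). -/
def Separation : Prop :=
  ∀ a b, W (gr a) → W (gr b) → (∀ x, W (gr x) → ¬ (Sig4 W a x ∧ Sig4 W b x)) →
    ∃ c d, W (gr c) ∧ W (gr d) ∧ ∀ x, W (gr x) →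
      (Sig4 W c x ↔ Pi4 W d x) ∧ (Sig4 W a x → Sig4 W c x) ∧ ¬ (Sig4 W b x ∧ Sig4 W c x)

/-- In `W`, the `Π¹₄` sets with the codes `c`, `d` reduce the `Π¹₄` sets with the codes `a`, `b`. -/
def Reduces (a b c d : ℕ → ℕ) : Prop := ∀ x, W (gr x) →
  (Pi4 W c x → Pi4 W a x) ∧ (Pi4 W d x → Pi4 W b x) ∧ ¬ (Pi4 W c x ∧ Pi4 W d x) ∧
    (Pi4 W a x ∨ Pi4 W b x → Pi4 W c x ∨ Pi4 W d x)

/-- In `W`, lightface `Π¹₄` has the reduction property. -/
def ReductionLight : Prop :=
  ∀ a b, Computable a → Computable b → ∃ c d, Computable c ∧ Computable d ∧ Reduces W a b c d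

/-- In `W`, boldface `Π¹₄` has the reduction property. -/
def ReductionBold : Prop :=
  ∀ a b, W (gr a) → W (gr b) → ∃ c d, W (gr c) ∧ W (gr d) ∧ Reduces W a b c d

/-- The main statement. There is a countable level `L_τ` of the constructible hierarchy which is a
model of ZFC, and in every such `L_τ` there is a forcing notion such that in all generic extensions
boldface `Σ¹₄` has the separation property while `Π¹₄` (lightface, and also boldface) does not have
the reduction property. -/
def Goal : Prop :=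
  (∃ τ : Ordinal.{0}, ((SF.LA ∅ τ : SF.V) : Set SF.V).Countable ∧ SF.ZFC (· ∈ SF.LA ∅ τ)) ∧
  ∀ τ : Ordinal.{0}, ((SF.LA ∅ τ : SF.V) : Set SF.V).Countable → SF.ZFC (· ∈ SF.LA ∅ τ) →
    ∃ c ∈ SF.LA ∅ τ, ∃ r ∈ SF.LA ∅ τ, SF.IsPo c r ∧
      ∀ G, SF.Gen (· ∈ SF.LA ∅ τ) c r G →
        Separation (SF.Ext (· ∈ SF.LA ∅ τ) G) ∧
        ¬ ReductionLight (SF.Ext (· ∈ SF.LA ∅ τ) G) ∧
        ¬ ReductionBold (SF.Ext (· ∈ SF.LA ∅ τ) G)

end PSR
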