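import Pool.Agent.H9.SE.TarK

/-!
# MP_eaeaf5_lc, part L: the ground model and the Luzin set. Definitions and targets
-/

set_option linter.unusedVariables false

open Ordinal Order Set
open scoped ZFSet

namespace SE

open SF CAA

/-! ## The ground model -/

/-- LC1: a countable good set -/
def T_LC1 : Prop := ∀ M, ZFCm M → ∃ C, M C ∧ Gd C ∧ Ctbl M C

/-- The ground model `L_τ` with `μ = ω₁`, `κ = ω₂`. -/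
structure Gnd (τ μ κ : Ordinal.{0}) : Prop where
  zfc : ZFC (· ∈ LA ∅ τ)
  ctb : ((LA ∅ τ : V) : Set V).Countable
  ord : ∀ α : Ordinal.{0}, α.toZFSet ∈ LA ∅ τ ↔ α < τ
  ωμ : ω < μ
  μκ : μ < κ
  κτ : κ < τ
  limμ : IsSuccLimit μ
  limκ : IsSuccLimit κ
  zμ : ZFm (· ∈ LA ∅ μ)
  zκ : ZFm (· ∈ LA ∅ κ)
  ordμ : ∀ α : Ordinal.{0}, α.toZFSet ∈ LA ∅ μ ↔ α < μ
  ordκ : ∀ α : Ordinal.{0}, α.toZFSet ∈ LA ∅ κ ↔ α < κ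
  cμ : ∀ x ∈ LA ∅ μ, Ctbl (· ∈ LA ∅ τ) x
  nμ : ¬ Ctbl (· ∈ LA ∅ τ) μ.toZFSet
  /-- countable sets of ordinals below `μ` are bounded -/
  bμ : ∀ x, Ctbl (· ∈ LA ∅ τ) x → x ⊆ μ.toZFSet → ∃ γ < μ, x ⊆ γ.toZFSet
  regκ : ∀ y ∈ LA ∅ κ, ∀ f ∈ LA ∅ τ, ZFSet.IsFunc y κ.toZFSet f →
    ∃ γ < κ, ∀ u ∈ y, app f u ∈ γ.toZFSet
  /-- elementary levels below `μ` -/
  el : ∀ α < μ, ∃ β, α < β ∧ β < μ ∧ ElSub (LA ∅ β) (LA ∅ μ) ∧ ZFm (· ∈ LA ∅ β)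
  subμ : ∀ y ∈ LA ∅ μ, ∀ x ∈ LA ∅ τ, x ⊆ y → x ∈ LA ∅ μ
  subκ : ∀ y ∈ LA ∅ κ, ∀ x ∈ LA ∅ τ, x ⊆ y → x ∈ LA ∅ κ

/-- LG1: the ground model -/
def T_LG1 : Prop := ∀ τ : Ordinal.{0}, ((LA ∅ τ : V) : Set V).Countable → ZFC (· ∈ LA ∅ τ) →
  ∃ μ κ, Gnd τ μ κ

/-- LG2: `L_κ` is closed under images; all sets are countable in `L_μ` -/
def T_LG2 : Prop := ∀ τ μ κ, Gnd τ μ κ → RegIn (LA ∅ κ) (· ∈ LA ∅ τ) ∧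
  (∀ x ∈ LA ∅ μ, Ctbl (· ∈ LA ∅ μ) x) ∧ ∀ x, x ⊆ LA ∅ μ → x ∈ LA ∅ τ → x ∈ LA ∅ κ

/-! ## Cohen reals -/

/-- the real `l` meets all dense sets `D ∈ x` of the tree `sq` -/
def Coh (x l : V) : Prop := Rl l ∧ ∀ D ∈ x, D ⊆ sq → (∀ s ∈ sq, ∃ t ∈ D, s ⊆ t) → ∃ t ∈ D, t ⊆ l

/-- `(β, ρ, ξ)` is the least triple (with `β` the maximum of `ρ`, `ξ`) such that the set with the
index `(ρ, ξ)` is a Cohen real over `x` -/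
structure Lst (ix : V → V → V) (x β ρ ξ : V) : Prop where
  r : ρ ⊆ β
  s : ξ ⊆ β
  c : Coh x (ix ∅ (ZFSet.pair ρ ξ))
  m1 : ∀ b ∈ β, ∀ u ∈ insert b b, ∀ v ∈ insert b b, ¬ Coh x (ix ∅ (ZFSet.pair u v))
  m2 : ∀ u ∈ ρ, ∀ v ∈ insert β β, ¬ Coh x (ix ∅ (ZFSet.pair u v))
  m3 : ∀ v ∈ ξ, ¬ Coh x (ix ∅ (ZFSet.pair ρ v))

/-- `L_η` is a model of `ZFm` in which all sets are countable, and `L_η` is countable in some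
`L_β`, `β ∈ M` -/
structure Ad (M : V → Prop) (η : Ordinal.{0}) : Prop where
  z : ZFm (· ∈ LA ∅ η)
  a : ∀ x ∈ LA ∅ η, Ctbl (· ∈ LA ∅ η) x
  c : ∃ β : Ordinal.{0}, M β.toZFSet ∧ Ctbl (· ∈ LA ∅ β) (LA ∅ η)

/-- `l` is the chosen Cohen real over `L_η` -/
def Lz (ix : V → V → V) (η : Ordinal.{0}) (l : V) : Prop := ∃ β ρ ξ : Ordinal.{0},
  Lst ix (LA ∅ η) β.toZFSet ρ.toZFSet ξ.toZFSet ∧ l = ix ∅ (ZFSet.pair ρ.toZFSet ξ.toZFSet)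

/-- the formula which defines the Luzin set -/
def ILf (ix : V → V → V) (M : V → Prop) (v : ℕ → V) : Prop := ∃ η β ρ ξ : Ordinal.{0},
  M η.toZFSet ∧ M β.toZFSet ∧ M ρ.toZFSet ∧ M ξ.toZFSet ∧ Ad M η ∧
    Lst ix (LA ∅ η) β.toZFSet ρ.toZFSet ξ.toZFSet ∧ v 0 = ix ∅ (ZFSet.pair ρ.toZFSet ξ.toZFSet)

/-- LA1: existence of Cohen reals over countable sets -/
def T_LA1 : Prop := ∀ M, ZFm M → ∀ x, Ctbl M x → ∃ l, M l ∧ Coh x l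

/-- LA2: definability -/
def T_LA2 : Prop := ∀ ix, IsIx ix → Dfb ZFm (fun _ v => Coh (v 0) (v 1)) ∧
  Dfb ZFm (fun _ v => Lst ix (v 0) (v 1) (v 2) (v 3)) ∧ Dfb ZFm (ILf ix)

/-- LA3: existence and uniqueness of the least triple -/
def T_LA3 : Prop := ∀ (ix : V → V → V) (x : V),
  (∀ ρ ξ δ : Ordinal.{0}, ρ < δ → ξ < δ → Coh x (ix ∅ (ZFSet.pair ρ.toZFSet ξ.toZFSet)) →
    ∃ β' ρ' ξ' : Ordinal.{0}, β' < δ ∧ ρ' < δ ∧ ξ' < δ ∧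
      Lst ix x β'.toZFSet ρ'.toZFSet ξ'.toZFSet) ∧
  ∀ β ρ ξ β' ρ' ξ' : Ordinal.{0}, Lst ix x β.toZFSet ρ.toZFSet ξ.toZFSet →
    Lst ix x β'.toZFSet ρ'.toZFSet ξ'.toZFSet → β = β' ∧ ρ = ρ' ∧ ξ = ξ'

/-- LA4: the least triple in a level -/
def T_LA4 : Prop := ∀ ix, IsIx ix → ∀ θ : Ordinal.{0}, ZFm (· ∈ LA ∅ θ) →
  (∀ α : Ordinal.{0}, α.toZFSet ∈ LA ∅ θ ↔ α < θ) → ∀ η : Ordinal.{0}, LA ∅ η ∈ LA ∅ θ →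
  Ctbl (· ∈ LA ∅ θ) (LA ∅ η) → ∃ β ρ ξ : Ordinal.{0}, β < θ ∧ ρ < θ ∧ ξ < θ ∧
    Lst ix (LA ∅ η) β.toZFSet ρ.toZFSet ξ.toZFSet ∧
      ix ∅ (ZFSet.pair ρ.toZFSet ξ.toZFSet) ∈ LA ∅ θ

/-- LA5: properties of the chosen Cohen reals -/
def T_LA5 : Prop := ∀ ix, IsIx ix → ∀ τ μ κ, Gnd τ μ κ →
  (∀ α < μ, ∃ η, α < η ∧ η < μ ∧ Ad (· ∈ LA ∅ τ) η) ∧
  (∀ η, Ad (· ∈ LA ∅ τ) η → η < μ ∧ (∀ α : Ordinal.{0}, α.toZFSet ∈ LA ∅ η ↔ α < η) ∧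
    ∃ l, Lz ix η l ∧ l ∈ LA ∅ μ ∧ Coh (LA ∅ η) l ∧ l ∉ LA ∅ η ∧ ∀ l', Lz ix η l' → l' = l) ∧
  ∀ η η', Ad (· ∈ LA ∅ τ) η → Ad (· ∈ LA ∅ τ) η' → η < η' → ∀ l, Lz ix η l → l ∈ LA ∅ η'

/-! ## The Luzin set -/

/-- the Luzin set -/
noncomputable def LL (ix : V → V → V) (τ μ : Ordinal.{0}) : V :=
  (LA ∅ μ).sep fun l => ∃ η, Ad (· ∈ LA ∅ τ) η ∧ Lz ix η l

/-- LB: the absolute definition of the Luzin set -/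
def T_LB : Prop := ∀ ix, IsIx ix → ∀ τ μ κ, Gnd τ μ κ → IsL (ILf ix) τ (LL ix τ μ)

/-- LC2: the Luzin set is an uncountable set of reals in the ground model -/
def T_LC2 : Prop := ∀ ix, IsIx ix → ∀ τ μ κ, Gnd τ μ κ →
  LL ix τ μ ∈ LA ∅ κ ∧ (∀ l ∈ LL ix τ μ, Rl l) ∧ ¬ Ctbl (· ∈ LA ∅ τ) (LL ix τ μ) ∧
  ∀ γ < μ, ∃ Z ∈ LA ∅ τ, Ctbl (· ∈ LA ∅ τ) Z ∧
    ∀ l ∈ LL ix τ μ, l ∉ Z → ∃ η, γ < η ∧ Ad (· ∈ LA ∅ τ) η ∧ Lz ix η l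

/-- `E` is a dense set of `k`-tuples of finite sequences -/
structure Dns (k : ℕ) (E : V) : Prop where
  f : ∀ s ∈ E, ZFSet.IsFunc (nS k) sq s
  d : ∀ s, ZFSet.IsFunc (nS k) sq s → ∃ t ∈ E, ∀ j < k, app s (nS j) ⊆ app t (nS j)

/-- LD1: the projection of a dense set of `k+1`-tuples to the first `k` coordinates, above `s` -/
def T_LD1 : Prop := ∀ M, ZFm M → ∀ (k : ℕ) (E s : V), M E → s ∈ sq → Dns (k + 1) E →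
  ∃ E', M E' ∧ Dns k E' ∧ ∀ t' ∈ E', ∃ t ∈ E, s ⊆ app t (nS k) ∧
    ∀ j < k, app t (nS j) = app t' (nS j)

/-- LD2: the set of the last coordinates is in the model -/
def T_LD2 : Prop := ∀ M, ZFm M → ∀ (k : ℕ) (E : V) (l : ℕ → V), M E → (∀ j < k, M (l j)) →
  M (sq.sep fun s => ∃ t ∈ E, app t (nS k) = s ∧ ∀ j < k, app t (nS j) ⊆ l j)

/-- LD: tuples of chosen Cohen reals, in increasing order, meet dense sets -/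
def T_LD : Prop := ∀ ix, IsIx ix → ∀ τ μ κ, Gnd τ μ κ → ∀ (k : ℕ) (ζ : Ordinal.{0}) (E : V)
  (η : ℕ → Ordinal.{0}) (l : ℕ → V), ZFm (· ∈ LA ∅ ζ) → E ∈ LA ∅ ζ → Dns k E →
  (∀ j < k, ζ ≤ η j ∧ Ad (· ∈ LA ∅ τ) (η j) ∧ Lz ix (η j) (l j)) →
  (∀ i j, i < j → j < k → η i < η j) → ∃ t ∈ E, ∀ j < k, app t (nS j) ⊆ l j

/-- LD3: permutations of dense sets of tuples -/
def T_LD3 : Prop := ∀ M, ZFm M → ∀ (k : ℕ) (E : V) (σ : Equiv.Perm (Fin k)), M E → Dns k E →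
  ∃ E', M E' ∧ Dns k E' ∧ ∀ t' ∈ E', ∃ t ∈ E, ∀ j : Fin k, app t (nS (σ j)) = app t' (nS j)

/-- LE: the Luzin property -/
def T_LE : Prop := ∀ ix, IsIx ix → ∀ τ μ κ, Gnd τ μ κ →
  ∀ (k : ℕ) (E : V), E ∈ LA ∅ τ → Dns k E →
    ∃ Z ∈ LA ∅ τ, Ctbl (· ∈ LA ∅ τ) Z ∧ ∀ d, ZFSet.IsFunc (nS k) (LL ix τ μ) d →
      (∀ i < k, ∀ j < k, i ≠ j → app d (nS i) ≠ app d (nS j)) → (∀ j < k, app d (nS j) ∉ Z) →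
      ∃ t ∈ E, ∀ j < k, app t (nS j) ⊆ app d (nS j)

end SE
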